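import Pool.Agent.Helper85.REC.Stmts13

/-!
# Reciprocity: blocks (definitions)
-/

set_option autoImplicit false

open scoped Classical
open NumberField Polynomial

namespace REC

open Pool.Agent.Helper13.ZL (Pl q)
open MU

/-- families of integral `l`-adic representations -/
abbrev Fml (F : Type) [Field F] [NumberField F] (n : ℕ) : Type :=
  ∀ (l : ℕ) [Fact l.Prime], Gal F →* Matrix.GeneralLinearGroup (Fin n) ℤ_[l]

/-- a direct summand `L^m` of `L^n` -/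
structure Blo (n m : ℕ) (L : Type) [Field L] [NumberField L] where
  /-- the denominator -/
  N : ℕ
  /-- the projection (times a number) -/
  P : Matrix (Fin m) (Fin n) (𝓞 L)
  /-- the inclusion (times a number) -/
  Q : Matrix (Fin n) (Fin m) (𝓞 L)
  pos : 0 < N
  PQ : P * Q = (N : 𝓞 L) • (1 : Matrix (Fin m) (Fin m) (𝓞 L))

section

variable {n m : ℕ} {L : Type} [Field L] [NumberField L]

/-- Over the field `Ω` (with maps from `ℤ_l` and `𝓞 L`) the projection is a homomorphism from `r` to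
the representation `R`. -/
def Blo.At (b : Blo n m L) {G : Type} [Group G] {l : ℕ} [Fact l.Prime] {Ω : Type} [Field Ω]
    (r : G →* Matrix.GeneralLinearGroup (Fin n) ℤ_[l]) (ϑ : ℤ_[l] →+* Ω) (ι : 𝓞 L →+* Ω)
    (R : G →* Matrix (Fin m) (Fin m) Ω) : Prop :=
  (b.N : Ω) ≠ 0 ∧ ∀ g, b.P.map ι * (r g : Matrix (Fin n) (Fin n) ℤ_[l]).map ϑ = R g * b.P.map ι

variable {F : Type} [Field F] [NumberField F]

/-- the summand is respected by the representations, over all fields -/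
def Blo.Stb (b : Blo n m L) (ρ : Fml F n) : Prop :=
  ∀ (l : ℕ) [Fact l.Prime] (Ω : Type) [Field Ω] (ϑ : ℤ_[l] →+* Ω) (ι : 𝓞 L →+* Ω),
    (b.N : Ω) ≠ 0 → ∃ R : Gal F →* Matrix (Fin m) (Fin m) Ω, b.At (ρ l) ϑ ι R

/-- The characteristic polynomials of the geometric Frobenius elements (and their powers) on the
summand have coefficients in `𝓞 L` and do not depend on `l`. -/
def Blo.Cmp (b : Blo n m L) (S : Finset ℕ) (ρ : Fml F n) : Prop :=
  ∀ p : ℕ, p.Prime → p ∉ S → ∀ 𝔓 : Ideal (Zb F), Over p 𝔓 → ∀ (k : ℕ) (σ : Gal F), 1 ≤ k →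
    CongPow 𝔓 (p ^ k) σ → ∃ Φ : (𝓞 L)[X], ∀ (l : ℕ) [Fact l.Prime], l ≠ p →
      ∀ (Ω : Type) [Field Ω] (ϑ : ℤ_[l] →+* Ω) (ι : 𝓞 L →+* Ω)
        (R : Gal F →* Matrix (Fin m) (Fin m) Ω), b.At (ρ l) ϑ ι R → (R σ⁻¹).charpoly = Φ.map ι

/-- for large `l` and every embedding of `L` in `ℚ_l` the image of the Galois group contains an open
subgroup of `SL_m(ℚ_l)` -/
def Blo.Big (b : Blo n m L) (ρ : Fml F n) : Prop :=
  ∃ c : ℕ, ∀ (l : ℕ) [Fact l.Prime], c < l → ∀ (ι : 𝓞 L →+* ℚ_[l])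
    (R : Gal F →* Matrix (Fin m) (Fin m) ℚ_[l]), b.At (ρ l) (algebraMap ℤ_[l] ℚ_[l]) ι R →
    ∃ N : ℕ, ∀ x : Matrix (Fin m) (Fin m) ℤ_[l], (1 + (l : ℤ_[l]) ^ N • x).det = 1 →
      ∃ g : Gal F, R g = (1 + (l : ℤ_[l]) ^ N • x).map (algebraMap ℤ_[l] ℚ_[l])

end

end REC
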