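import Pool.Agent.Helper27.REC.StmtsT2

/-!
# Reciprocity, part 15, row MAI: the lifting theorem for families
[helper27]
-/

set_option autoImplicit false

open scoped Classical
open NumberField Polynomial

namespace REC

open Pool.Agent.Helper13.ZL (Pl q)
open MU

namespace Mai

theorem kron_map {ι κ ι' κ' R R' : Type} [CommRing R] [CommRing R'] (f : R →+* R')
    (X : Matrix ι κ R) (Y : Matrix ι' κ' R) :
    (Matrix.kroneckerMap (· * ·) X Y).map f =
      Matrix.kroneckerMap (· * ·) (X.map f) (Y.map f) := by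
  ext i j
  simp [Matrix.kroneckerMap_apply]

theorem noRel_mono {K : Type} [Field K] {t : ℕ} {m : Fin t → ℕ} {z : Fin t → Prop} {q : Fin t → K}
    {D D' : ℕ} (h : D ≤ D') {α : ∀ i, Fin (m i) → K} (h1 : NoRel z q D' α) : NoRel z q D α := by
  intro e he
  exact h1 e (fun i x => (he i x).trans (by exact_mod_cast h))

theorem val_inj {K : Type} [Field K] (A : ValuationSubring K) : Function.Injective A.subtype :=
  Subtype.val_injective

theorem jm_map {t : ℕ} {m : Fin t → ℕ} {R R' : Type} [CommRing R] [CommRing R'] (f : R →+* R')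
    (J : MM m ℤ) (i : Fin t) : (jm R J i).map f = jm R' J i := by
  ext x y
  simp [jm]

section

variable {F L : Type} [Field F] [NumberField F] [Field L] [NumberField L] {l : ℕ} [Fact l.Prime]
  {K : Type} [Field K] [CharZero K] {A : ValuationSubring K} (ϑ : ℤ_[l] →+* A)

theorem cyv_comp {R : Type} [CommRing R] (f : A →+* R) (g : Gal F) :
    cyv (f.comp ϑ) g = f (cyv ϑ g) := rfl

/-- units -/
theorem natCast_unit (hl : (l : IsLocalRing.ResidueField A) = 0) {N : ℕ} (hN : 0 < N) (h : N < l) :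
    IsUnit (N : A) := by
  rw [← IsLocalRing.residue_ne_zero_iff_isUnit, map_natCast]
  intro h1
  have hp : l.Prime := Fact.out
  have h2 : CharP (IsLocalRing.ResidueField A) l := by
    apply (CharP.charP_iff_prime_eq_zero hp).mpr hl
  have h3 := (CharP.cast_eq_zero_iff (IsLocalRing.ResidueField A) l N).mp h1
  have h4 := Nat.le_of_dvd hN h3
  omega

theorem frm0 {t : ℕ} {n₂ m w : Fin t → ℕ} {ρ : ∀ i, Fml F (n₂ i)} {b : ∀ i, Blo (n₂ i) (m i) L}
    {J : MM m ℤ} (hFrm : Frm J w b ρ) (ι : 𝓞 L →+* A)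
    (R : ∀ i, Gal F →* Matrix (Fin (m i)) (Fin (m i)) A)
    (hR : ∀ i, (b i).At (ρ i l) (A.subtype.comp ϑ) (A.subtype.comp ι) (mapr A.subtype (R i))) :
    Frm0 (jm A J) R (fun i g => cyv ϑ g ^ w i) := by
  intro i g
  obtain ⟨h1, h2⟩ := hFrm i l K _ _ _ (hR i) g
  refine ⟨?_, ?_⟩
  · apply Matrix.map_injective (val_inj A)
    have e1 : (mapr A.subtype (R i) g) = (R i g).map A.subtype := rfl
    rw [e1, cyv_comp] at h1
    change ((R i g).transpose * jm A J i * R i g).map A.subtype =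
      ((cyv ϑ g ^ w i) • jm A J i).map A.subtype
    rw [Matrix.map_mul, Matrix.map_mul, jm_map, Matrix.transpose_map, h1]
    ext x y
    simp [jm]
  · intro h3 r hr
    have h4 : J i ≠ 0 := by
      intro h5
      apply h3
      ext x y
      simp [jm, h5]
    have h5 := h2 h4 r hr
    have e1 : (mapr A.subtype (R i) g) = (R i g).map A.subtype := rfl
    rw [e1, cyv_comp] at h5
    apply val_inj A
    have h6 : A.subtype (R i g).det = ((R i g).map A.subtype).det := by
      rw [RingHom.map_det]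
      rfl
    rw [h6, h5, map_pow, map_pow]

/-- the power of the cyclotomic character -/
noncomputable def cyw (e : ℤ) : Gal F →* A :=
  (ϑ : ℤ_[l] →* A).comp ((Units.coeHom ℤ_[l]).comp ((zpowGroupHom e).comp (cyc l F)))

theorem cyw_apply (e : ℤ) (g : Gal F) :
    cyw (F := F) ϑ e g = ϑ (((cyc l F g ^ e : ℤ_[l]ˣ) : ℤ_[l])) := rfl

theorem cyv_pow (g : Gal F) (k : ℕ) :
    cyv ϑ g ^ k = ϑ (((cyc l F g ^ (-(k : ℤ)) : ℤ_[l]ˣ) : ℤ_[l])) := by
  unfold cyv
  rw [← map_pow, ← Units.val_pow_eq_pow_val, map_inv, zpow_neg, zpow_natCast, inv_pow]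

theorem cyw_mul (e : ℤ) (E : ℕ) (h : |e| ≤ E) (g : Gal F) :
    cyw (F := F) ϑ e g * cyv ϑ g ^ E = cyv ϑ g ^ (E - e).toNat := by
  rw [cyw_apply, cyv_pow, cyv_pow, ← map_mul, ← Units.val_mul, ← zpow_add]
  congr 4
  have h1 : e ≤ E := (le_abs_self e).trans h
  rw [Int.toNat_of_nonneg (by omega)]
  ring

theorem cyv_unit (g : Gal F) : IsUnit (cyv ϑ g) := by
  unfold cyv
  exact (cyc l F g⁻¹).isUnit.map ϑ

theorem chx_prod {t : ℕ} {m : Fin t → ℕ} (J : MM m ℤ) (w : Fin t → ℕ)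
    (R : ∀ i, Gal F →* Matrix (Fin (m i)) (Fin (m i)) A) (κ : Fin t → ℕ) (g : Gal F) :
    ∏ i, chx J R (fun i g => cyv ϑ g ^ w i) i g ^ κ i =
      cyv ϑ g ^ (∑ i, if J i = 0 then 0 else w i * κ i) *
        ∏ i, (R i g).det ^ (if J i = 0 then κ i else 0) := by
  rw [← Finset.prod_pow_eq_pow_sum, ← Finset.prod_mul_distrib]
  apply Finset.prod_congr rfl
  intro i _
  unfold chx
  split_ifs with h
  · rw [pow_zero, one_mul]
  · rw [pow_zero, mul_one, pow_mul]

theorem tau_conv {t : ℕ} {m : Fin t → ℕ} (J : MM m ℤ) (w : Fin t → ℕ)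
    (R : ∀ i, Gal F →* Matrix (Fin (m i)) (Fin (m i)) A) (κ : Fin t → ℕ) (χ : Gal F →* A) (e : ℤ)
    (E M : ℕ) (hE : |e| ≤ E) (g : Gal F) :
    ((cyw (F := F) ϑ e * χ : Gal F →* A) g ^ M *
      ∏ i, chx J R (fun i g => cyv ϑ g ^ w i) i g ^ κ i) * (cyv ϑ g ^ E) ^ M =
    χ g ^ M * cyv ϑ g ^ (M * (E - e).toNat + ∑ i, if J i = 0 then 0 else w i * κ i) *
      ∏ i, (R i g).det ^ (if J i = 0 then κ i else 0) := by
  rw [chx_prod, pow_add, pow_mul', ← cyw_mul ϑ e E hE g, MonoidHom.mul_apply]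
  ring

/-- transport of `Sep` -/
theorem sepr_of {t : ℕ} {m w : Fin t → ℕ} (J : MM m ℤ)
    (R : ∀ i, Gal F →* Matrix (Fin (m i)) (Fin (m i)) A)
    (κ : Fin t → ℤ) (χ χ' : Gal F →* A) (e e' : ℤ)
    (E D : ℕ) (hE : |e| ≤ E) (hE' : |e'| ≤ E)
    (h : ∀ (a a' : ℕ) (k k' : Fin t → ℕ), a ≤ D → a' ≤ D → (∀ i, k i ≤ D) → (∀ i, k' i ≤ D) →
      (∀ g, IsLocalRing.residue A (χ g ^ mu2 m * cyv ϑ g ^ a * ∏ i, (R i g).det ^ k i) =
        IsLocalRing.residue A (χ' g ^ mu2 m * cyv ϑ g ^ a' * ∏ i, (R i g).det ^ k' i)) →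
      ∀ g, χ g ^ mu2 m * cyv ϑ g ^ a * ∏ i, (R i g).det ^ k i =
        χ' g ^ mu2 m * cyv ϑ g ^ a' * ∏ i, (R i g).det ^ k' i)
    (hD : mu2 m * (2 * E) + ∑ i, (w i + 1) * (κ i).natAbs ≤ D) :
    Sepr A J R (fun i g => cyv ϑ g ^ w i) (cyw (F := F) ϑ e * χ : Gal F →* A) (cyw (F := F) ϑ e' * χ' : Gal F →* A) κ := by
  intro h1 g
  have hb : ∀ i, (w i + 1) * (κ i).natAbs ≤ D := by
    intro i
    have h2 : (w i + 1) * (κ i).natAbs ≤ ∑ i, (w i + 1) * (κ i).natAbs :=
      Finset.single_le_sum (f := fun i => (w i + 1) * (κ i).natAbs) (fun _ _ => Nat.zero_le _)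
        (Finset.mem_univ i)
    omega
  have hp : ∀ i, (κ i).toNat ≤ (κ i).natAbs := by
    intro i
    omega
  have hm : ∀ i, (-κ i).toNat ≤ (κ i).natAbs := by
    intro i
    omega
  have ha : ∀ (x : ℤ) (k : Fin t → ℕ), |x| ≤ E → (∀ i, k i ≤ (κ i).natAbs) →
      mu2 m * (E - x).toNat + (∑ i, if J i = 0 then 0 else w i * k i) ≤ D := by
    intro x k hx hk
    have h3 : (E - x).toNat ≤ 2 * E := by
      have := abs_le.mp hx
      omega
    have h4 : (∑ i, if J i = 0 then 0 else w i * k i) ≤ ∑ i, (w i + 1) * (κ i).natAbs := by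
      apply Finset.sum_le_sum
      intro i _
      split_ifs
      · exact Nat.zero_le _
      · exact Nat.mul_le_mul (Nat.le_succ _) (hk i)
    have h5 : mu2 m * (E - x).toNat ≤ mu2 m * (2 * E) := Nat.mul_le_mul_left _ h3
    omega
  have hk : ∀ k : Fin t → ℕ, (∀ i, k i ≤ (κ i).natAbs) →
      ∀ i, (if J i = 0 then k i else 0) ≤ D := by
    intro k h3 i
    split_ifs
    · have := hb i
      have h5 := h3 i
      have h6 : (κ i).natAbs ≤ (w i + 1) * (κ i).natAbs := Nat.le_mul_of_pos_left _ (by omega)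
      omega
    · exact Nat.zero_le _
  have h2 := h _ _ _ _ (ha e _ hE hp) (ha e' _ hE' hm) (hk _ hp) (hk _ hm) (by
    intro g
    rw [← tau_conv ϑ J w R _ χ e E _ hE g, ← tau_conv ϑ J w R _ χ' e' E _ hE' g, map_mul, h1 g,
      ← map_mul]) g
  rw [← tau_conv ϑ J w R _ χ e E _ hE g, ← tau_conv ϑ J w R _ χ' e' E _ hE' g] at h2
  exact (((cyv_unit ϑ g).pow E).pow _).mul_right_cancel h2

end

section

variable {ι R : Type} [Fintype ι] [CommRing R] {n₁ n : ℕ}

/-- rows -/
def rw' (C' : Matrix (Fin n₁) (Fin n₁) R) (P : Matrix (ι × Fin n₁) (Fin n) R) (x : Fin n₁) :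
    Matrix ι (Fin n) R :=
  Matrix.of fun p y => ∑ x', C' x x' * P (p, x') y

/-- columns -/
def cl' (C : Matrix (Fin n₁) (Fin n₁) R) (Q : Matrix (Fin n) (ι × Fin n₁) R) (x : Fin n₁) :
    Matrix (Fin n) ι R :=
  Matrix.of fun y p => ∑ x', Q y (p, x') * C x' x

theorem rw_rel (tm : Matrix ι ι R) (W C C' : Matrix (Fin n₁) (Fin n₁) R) (d : Fin n₁ → R)
    (hC : C * C' = 1) (hD : C' * W * C = Matrix.diagonal d) (P : Matrix (ι × Fin n₁) (Fin n) R)
    (μ : Matrix (Fin n) (Fin n) R)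
    (h : P * μ = Matrix.kroneckerMap (· * ·) tm W * P) (x : Fin n₁) :
    rw' C' P x * μ = (d x • tm) * rw' C' P x := by
  have h1 : C' * W = Matrix.diagonal d * C' := by
    rw [← hD, Matrix.mul_assoc (C' * W), hC, Matrix.mul_one]
  have h2 : ∀ x'', ∑ x', C' x x' * W x' x'' = d x * C' x x'' := by
    intro x''
    have := congrFun (congrFun h1 x) x''
    rwa [Matrix.mul_apply, Matrix.diagonal_mul] at this
  have h3 : ∀ p x' y, ∑ y', P (p, x') y' * μ y' y = ∑ p', ∑ x'', tm p p' * W x' x'' *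
      P (p', x'') y := by
    intro p x' y
    have := congrFun (congrFun h (p, x')) y
    rw [Matrix.mul_apply, Matrix.mul_apply, Fintype.sum_prod_type] at this
    exact this
  ext p y
  rw [Matrix.mul_apply, Matrix.mul_apply]
  simp only [rw', Matrix.of_apply, Matrix.smul_apply, smul_eq_mul]
  calc ∑ y', (∑ x', C' x x' * P (p, x') y') * μ y' y
      = ∑ x', C' x x' * ∑ y', P (p, x') y' * μ y' y := by
        simp only [Finset.sum_mul, Finset.mul_sum]
        rw [Finset.sum_comm]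
        simp only [mul_assoc]
    _ = ∑ x', C' x x' * ∑ p', ∑ x'', tm p p' * W x' x'' * P (p', x'') y := by
        simp only [h3]
    _ = ∑ p', ∑ x'', tm p p' * (∑ x', C' x x' * W x' x'') * P (p', x'') y := by
        simp only [Finset.sum_mul, Finset.mul_sum]
        rw [Finset.sum_comm]
        apply Finset.sum_congr rfl
        intro p' _
        rw [Finset.sum_comm]
        apply Finset.sum_congr rfl
        intro x'' _
        apply Finset.sum_congr rfl
        intro x' _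
        ring
    _ = ∑ p', d x * tm p p' * ∑ x', C' x x' * P (p', x') y := by
        simp only [h2, Finset.mul_sum]
        apply Finset.sum_congr rfl
        intro p' _
        apply Finset.sum_congr rfl
        intro x'' _
        ring

theorem cl_rel (tm : Matrix ι ι R) (W C C' : Matrix (Fin n₁) (Fin n₁) R) (d : Fin n₁ → R)
    (hC : C * C' = 1) (hD : C' * W * C = Matrix.diagonal d) (Q : Matrix (Fin n) (ι × Fin n₁) R)
    (μ : Matrix (Fin n) (Fin n) R)
    (h : μ * Q = Q * Matrix.kroneckerMap (· * ·) tm W) (x : Fin n₁) :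
    μ * cl' C Q x = cl' C Q x * (d x • tm) := by
  have h1 : W * C = C * Matrix.diagonal d := by
    rw [← hD, ← Matrix.mul_assoc, ← Matrix.mul_assoc, hC, Matrix.one_mul]
  have h2 : ∀ x'', ∑ x', W x'' x' * C x' x = C x'' x * d x := by
    intro x''
    have := congrFun (congrFun h1 x'') x
    rwa [Matrix.mul_apply, Matrix.mul_diagonal] at this
  have h3 : ∀ y p x', ∑ y', μ y y' * Q y' (p, x') = ∑ p', ∑ x'', Q y (p', x'') *
      (tm p' p * W x'' x') := by
    intro y p x'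
    have := congrFun (congrFun h y) (p, x')
    rw [Matrix.mul_apply, Matrix.mul_apply, Fintype.sum_prod_type] at this
    exact this
  ext y p
  rw [Matrix.mul_apply, Matrix.mul_apply]
  simp only [cl', Matrix.of_apply, Matrix.smul_apply, smul_eq_mul]
  calc ∑ y', μ y y' * (∑ x', Q y' (p, x') * C x' x)
      = ∑ x', (∑ y', μ y y' * Q y' (p, x')) * C x' x := by
        simp only [Finset.sum_mul, Finset.mul_sum]
        rw [Finset.sum_comm]
        simp only [mul_assoc]
    _ = ∑ x', (∑ p', ∑ x'', Q y (p', x'') * (tm p' p * W x'' x')) * C x' x := by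
        simp only [h3]
    _ = ∑ p', ∑ x'', Q y (p', x'') * tm p' p * (∑ x', W x'' x' * C x' x) := by
        simp only [Finset.sum_mul, Finset.mul_sum]
        rw [Finset.sum_comm]
        apply Finset.sum_congr rfl
        intro p' _
        rw [Finset.sum_comm]
        apply Finset.sum_congr rfl
        intro x'' _
        apply Finset.sum_congr rfl
        intro x' _
        ring
    _ = ∑ p', (∑ x', Q y (p', x') * C x' x) * (d x * tm p' p) := by
        simp only [h2, Finset.sum_mul]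
        apply Finset.sum_congr rfl
        intro p' _
        apply Finset.sum_congr rfl
        intro x'' _
        ring

theorem cl_rw (C C' : Matrix (Fin n₁) (Fin n₁) R) (hC : C * C' = 1)
    (P : Matrix (ι × Fin n₁) (Fin n) R) (Q : Matrix (Fin n) (ι × Fin n₁) R) :
    ∑ x, cl' C Q x * rw' C' P x = Q * P := by
  ext y y'
  rw [Matrix.sum_apply, Matrix.mul_apply, Fintype.sum_prod_type]
  simp only [Matrix.mul_apply, cl', rw', Matrix.of_apply]
  rw [Finset.sum_comm]
  apply Finset.sum_congr rfl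
  intro p _
  have h1 := Matrix.dotProduct_mulVec (fun x' => Q y (p, x')) C
    (C'.mulVec fun x'' => P (p, x'') y')
  rw [Matrix.mulVec_mulVec, hC, Matrix.one_mulVec] at h1
  exact h1.symm

end

end Mai

open Mai in
/-- the lifting theorem for families -/
theorem MAI (hVAL : ST_VAL) (hATA : ST_ATA) (hPRM : ST_PRM) (hGNL : ST_GNL) (hSP1 : ST_SP1)
    (hLHM : ST_LHM) (hALG : ST_ALG) (hTMB : ST_TMB) : ST_MAI := by
  intro F L _ _ _ _ S t n₂ m w h₂ ρ b J k c c' n₁ B e n μ hJ hρ hFrm hGnr hB hSmd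
  obtain ⟨N, P, Q, hN, hPQ, hrel⟩ := hSmd
  have hmu : 0 < mu2 m := by
    unfold mu2
    exact Nat.mul_pos two_pos (Finset.prod_pos fun i _ => (hJ i).1)
  choose cA hA using fun i => (hATA F L (n₂ i) (m i) (b i) (ρ i)).2 (hρ i).2.1
  choose cP hP using fun i => hPRM F L (n₂ i) (m i) (h₂ i) (b i) False (ρ i) (hρ i).1 (hρ i).2.1
    (hρ i).2.2.2.1 (hρ i).2.2.2.2
  choose cD hD using fun a => (hB a).2
  choose cL hL using fun a a' => hLHM t m J hJ (c a) (c' a) (c a') (c' a')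
  obtain ⟨cG, hG⟩ := hGNL F L t n₂ m S J w b ρ (fun i => (hρ i).2.2.1) hGnr (∑ a, ∑ a', cL a a')
  let E : ℕ := ∑ a, (e a).natAbs
  let D : ℕ := mu2 m * (2 * E) +
    ∑ a, ∑ a', ∑ i, (w i + 1) * (kap J (c a) (c' a) (c a') (c' a') i).natAbs
  choose cS hS using fun a a' => hSP1 F L S t n₂ m b ρ (n₁ a) (n₁ a') (B a) (B a')
    (fun i => ⟨(hρ i).1.1, (hρ i).2.1, (hρ i).2.2.1⟩) (hB a).1 (hB a').1 (hB a).2 (hB a').2
    (mu2 m) D hmu
  have s1 : ∀ {ι : Type} [Fintype ι] (f : ι → ℕ) (i : ι), f i ≤ ∑ i, f i := fun f i =>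
    Finset.single_le_sum (f := f) (fun _ _ => Nat.zero_le _) (Finset.mem_univ i)
  have s2 : ∀ (f : Fin k → Fin k → ℕ) (a a' : Fin k), f a a' ≤ ∑ a, ∑ a', f a a' := fun f a a' =>
    (s1 (f a) a').trans (s1 (fun a => ∑ a', f a a') a)
  refine ⟨N + ∑ i, cA i + ∑ i, cP i + ∑ a, cD a + ∑ a, ∑ a', cL a a' + cG + ∑ a, ∑ a', cS a a',
    ?_⟩
  intro l _ hl0
  have lA : ∀ i, cA i < l := fun i => by have := s1 cA i; omega
  have lP : ∀ i, cP i < l := fun i => by have := s1 cP i; omega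
  have lD : ∀ i, cD i < l := fun i => by have := s1 cD i; omega
  have lL : ∀ a a', cL a a' < l := fun a a' => by have := s2 cL a a'; omega
  have lS : ∀ a a', cS a a' < l := fun a a' => by have := s2 cS a a'; omega
  obtain ⟨K, _, _, _, A, ϑ, ι, hl⟩ := hVAL.1 L l
  have hcl : IsAlgClosed (IsLocalRing.ResidueField A) := hVAL.2 K A
  choose R hR using fun i => hA i l (lA i) K A ϑ ι hl
  have hR1 := fun i => (hATA F L (n₂ i) (m i) (b i) (ρ i)).1 l K A ϑ ι (R i) (hR i)
  have hNu : IsUnit (N : A) := natCast_unit hl hN (by omega)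
  have hNK : (N : K) ≠ 0 := by exact_mod_cast hN.ne'
  choose C C' χ hC hC' hχ using fun a => hD a l (lD a) K A ϑ hl
  obtain ⟨g₀, α, hα, hrelα⟩ := hG l (by omega) (IsLocalRing.ResidueField A)
    ((IsLocalRing.residue A).comp ϑ) ((IsLocalRing.residue A).comp ι)
    (fun i => mapr (IsLocalRing.residue A) (R i)) hl (fun i => (hR1 i).2)
  have hFrh : ∀ a a', Frh A J R (fun i g => cyv ϑ g ^ w i) (cL a a') := by
    intro a a'
    refine ⟨frm0 ϑ hFrm ι R fun i => (hR1 i).1, ?_, g₀, α, hα, ?_⟩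
    · intro i
      exact hP i l (lP i) _ _ _ _ hl (hR1 i).2
    · have h1 := noRel_mono (s2 cL a a') hrelα
      simpa only [cyv_comp, map_pow] using h1
  have tmap : ∀ a g, (tmy (c a) (c' a) (fun i => R i g) (fun i => R i g⁻¹)).map A.subtype =
      tmy (c a) (c' a) (fun i => mapr A.subtype (R i) g) (fun i => mapr A.subtype (R i) g⁻¹) :=
    fun a g => ((hTMB A t m (c a) (c' a)).2.2.1 K A.subtype _ _).1
  have hPa : ∀ a g, (P a).map ι * (μ l g : Matrix (Fin n) (Fin n) ℤ_[l]).map ϑ =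
      Matrix.kroneckerMap (· * ·) (tmy (c a) (c' a) (fun i => R i g) (fun i => R i g⁻¹))
        ((twc (B a l) (e a) g).map ϑ) * (P a).map ι ∧
      (μ l g : Matrix (Fin n) (Fin n) ℤ_[l]).map ϑ * (Q a).map ι =
      (Q a).map ι * Matrix.kroneckerMap (· * ·)
        (tmy (c a) (c' a) (fun i => R i g) (fun i => R i g⁻¹))
        ((twc (B a l) (e a) g).map ϑ) := by
    intro a g
    obtain ⟨h1, h2⟩ := hrel l K (A.subtype.comp ϑ) (A.subtype.comp ι)
      (fun i => mapr A.subtype (R i)) hNK (fun i => (hR1 i).1) a g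
    rw [← tmap] at h1 h2
    refine ⟨?_, ?_⟩
    · apply Matrix.map_injective (val_inj A)
      change ((P a).map ι * (μ l g : Matrix (Fin n) (Fin n) ℤ_[l]).map ϑ).map A.subtype =
        (Matrix.kroneckerMap (· * ·) (tmy (c a) (c' a) (fun i => R i g) (fun i => R i g⁻¹))
        ((twc (B a l) (e a) g).map ϑ) * (P a).map ι).map A.subtype
      rw [Matrix.map_mul, Matrix.map_mul, kron_map]
      exact h1
    · apply Matrix.map_injective (val_inj A)
      change ((μ l g : Matrix (Fin n) (Fin n) ℤ_[l]).map ϑ * (Q a).map ι).map A.subtype =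
        ((Q a).map ι * Matrix.kroneckerMap (· * ·)
        (tmy (c a) (c' a) (fun i => R i g) (fun i => R i g⁻¹))
        ((twc (B a l) (e a) g).map ϑ)).map A.subtype
      rw [Matrix.map_mul, Matrix.map_mul, kron_map]
      exact h2
  have hdia : ∀ a g, C' a * (twc (B a l) (e a) g).map ϑ * C a =
      Matrix.diagonal fun x => (cyw (F := F) ϑ (e a) * χ a x : Gal F →* A) g := by
    intro a g
    have h1 : (twc (B a l) (e a) g).map ϑ = cyw (F := F) ϑ (e a) g •
        (B a l g : Matrix (Fin (n₁ a)) (Fin (n₁ a)) ℤ_[l]).map ϑ := by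
      ext x y
      simp [twc, cyw_apply]
    rw [h1, Matrix.mul_smul, Matrix.smul_mul, hχ a g]
    ext x y
    simp [Matrix.diagonal_apply]
  have hE : ∀ a, |e a| ≤ (E : ℤ) := by
    intro a
    have h1 := s1 (fun a => (e a).natAbs) a
    rw [Int.abs_eq_natAbs]
    exact_mod_cast h1
  have hOcc : ∀ a x, Occ A (B a l) ϑ (χ a x) := by
    intro a x
    refine ⟨(C a).col x, ?_, ?_⟩
    · intro h0
      have h1 : (C' a).mulVec ((C a).col x) = 0 := by rw [h0, Matrix.mulVec_zero]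
      have h2 : (C' a).mulVec ((C a).col x) = (C' a * C a).col x := by
        ext y
        simp [Matrix.mulVec, Matrix.mul_apply, dotProduct]
      rw [h2, hC'] at h1
      have h3 := congrFun h1 x
      simp at h3
    · intro g
      have h1 : (B a l g : Matrix (Fin (n₁ a)) (Fin (n₁ a)) ℤ_[l]).map ϑ * C a =
          C a * Matrix.diagonal fun x => χ a x g := by
        rw [← hχ a g, ← Matrix.mul_assoc, ← Matrix.mul_assoc, hC, Matrix.one_mul]
      have h2 : ((B a l g : Matrix (Fin (n₁ a)) (Fin (n₁ a)) ℤ_[l]).map ϑ).mulVec ((C a).col x) =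
          ((B a l g : Matrix (Fin (n₁ a)) (Fin (n₁ a)) ℤ_[l]).map ϑ * C a).col x := by
        ext y
        simp [Matrix.mulVec, Matrix.mul_apply, dotProduct]
      rw [h2, h1]
      ext y
      simp [Matrix.mul_diagonal, mul_comm]
  refine hALG l K A ϑ hl (Gal F) (Σ a : Fin k, Fin (n₁ a)) (fun z => Tix m (c z.1) (c' z.1))
    (fun z g => (cyw (F := F) ϑ (e z.1) * χ z.1 z.2 : Gal F →* A) g •
      tmy (c z.1) (c' z.1) (fun i => R i g) (fun i => R i g⁻¹)) n (μ l)
    (fun z => rw' (C' z.1) ((P z.1).map ι) z.2) (fun z => cl' (C z.1) ((Q z.1).map ι) z.2)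
    (N : A) hNu ?_ ?_ ?_ ?_
  · rw [Fintype.sum_sigma]
    have h0 : ∀ a, ∑ x, cl' (C a) ((Q a).map ι) x * rw' (C' a) ((P a).map ι) x =
        (Q a).map ι * (P a).map ι := fun a => cl_rw _ _ (hC a) _ _
    change ∑ a, ∑ x, cl' (C a) ((Q a).map ι) x * rw' (C' a) ((P a).map ι) x = _
    rw [Finset.sum_congr rfl fun a _ => h0 a]
    have h1 : (∑ a, Q a * P a).map ι = ((N : 𝓞 L) • (1 : Matrix (Fin n) (Fin n) (𝓞 L))).map ι := by
      rw [hPQ]
    have h2 : (∑ a, Q a * P a).map ι = ∑ a, (Q a).map ι * (P a).map ι := by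
      refine Matrix.ext fun x y => ?_
      rw [Matrix.map_apply, Matrix.sum_apply, Matrix.sum_apply, map_sum]
      apply Finset.sum_congr rfl
      intro a _
      rw [← Matrix.map_mul, Matrix.map_apply]
    rw [← h2, h1]
    refine Matrix.ext fun x y => ?_
    by_cases hxy : x = y <;> simp [Matrix.map_apply, Matrix.smul_apply, hxy]
  · intro z g
    exact ⟨rw_rel _ _ _ _ _ (hC z.1) (hdia z.1 g) _ _ (hPa z.1 g).1 z.2,
      cl_rel _ _ _ _ _ (hC z.1) (hdia z.1 g) _ _ (hPa z.1 g).2 z.2⟩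
  · intro z
    exact (hL z.1 z.1 l K A Fact.out (lL _ _) hl (Gal F) R _ (hFrh _ _)).2 _
  · intro z z' u hu
    refine (hL z.1 z'.1 l K A Fact.out (lL _ _) hl (Gal F) R _ (hFrh _ _)).1 _ _ ?_ u hu
    refine sepr_of ϑ J R _ (χ z.1 z.2) (χ z'.1 z'.2) _ _ E D (hE _) (hE _) ?_ ?_
    · intro a a' k₁ k₂ ha ha' hk hk' hres
      exact hS z.1 z'.1 l (lS _ _) K A ϑ ι R hl hR _ _ (hOcc _ _) (hOcc _ _) a a' k₁ k₂ ha ha' hk
        hk' hres
    · have := s2 (fun a a' => ∑ i, (w i + 1) * (kap J (c a) (c' a) (c a') (c' a') i).natAbs) z.1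
        z'.1
      show mu2 m * (2 * E) + ∑ i, (w i + 1) *
        (kap J (c z.1) (c' z.1) (c z'.1) (c' z'.1) i).natAbs ≤ D
      exact Nat.add_le_add_left this _

end REC
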