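import Pool.Agent.Helper27.REC.WDT
import Pool.Agent.Helper57.REC.StmtsX

set_option autoImplicit false

/-! REC, row XWD: reducible reductions of a summand give the data. -/

open scoped Classical
open NumberField Polynomial

namespace Pool.Agent.Helper27.REC

open _root_.REC
open Pool.Agent.Helper13.ZL (Pl q)
open MU
open Pool.Agent.Helper61.REC
open Pool.Agent.Helper52.REC

/-- extension of homomorphisms along integral extensions -/
theorem ext_hom {A B Ω : Type} [CommRing A] [CommRing B] [IsDomain B] [Field Ω] [IsAlgClosed Ω]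
    (f : A →+* B) (hf : f.IsIntegral) (hinj : Function.Injective f) (ι : A →+* Ω) :
    ∃ ι' : B →+* Ω, ι'.comp f = ι := by
  let a1 : Algebra A B := f.toAlgebra
  have a2 : Algebra.IsIntegral A B := ⟨hf⟩
  have hker : (RingHom.ker ι).IsPrime := RingHom.ker_isPrime ι
  obtain ⟨Q, hQ, hQm⟩ := Ideal.exists_ideal_over_prime_of_isIntegral_of_isDomain (S := B)
    (RingHom.ker ι) (by
      have h1 : RingHom.ker (algebraMap A B) = ⊥ := (RingHom.injective_iff_ker_eq_bot f).1 hinj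
      rw [h1]
      exact bot_le)
  have hQm' : RingHom.ker ι ≤ Q.comap f := le_of_eq hQm.symm
  let gB : A ⧸ RingHom.ker ι →+* B ⧸ Q := Ideal.quotientMap Q f hQm'
  have hgB : Function.Injective gB := Ideal.quotientMap_injective' (le_of_eq hQm)
  have hgA : Function.Injective (RingHom.kerLift ι) := RingHom.kerLift_injective ι
  have d1 : IsDomain (A ⧸ RingHom.ker ι) := by
    rw [Ideal.Quotient.isDomain_iff_prime]
    exact RingHom.ker_isPrime ι
  have d2 : IsDomain (B ⧸ Q) := by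
    rw [Ideal.Quotient.isDomain_iff_prime]
    exact hQ
  let a3 : Algebra (A ⧸ RingHom.ker ι) Ω := (RingHom.kerLift ι).toAlgebra
  let a4 : Algebra (A ⧸ RingHom.ker ι) (B ⧸ Q) := gB.toAlgebra
  have t1 : Module.IsTorsionFree (A ⧸ RingHom.ker ι) Ω :=
    Module.isTorsionFree_iff_algebraMap_injective.2 hgA
  have t2 : Module.IsTorsionFree (A ⧸ RingHom.ker ι) (B ⧸ Q) :=
    Module.isTorsionFree_iff_algebraMap_injective.2 hgB
  have t3 : Algebra.IsAlgebraic (A ⧸ RingHom.ker ι) (B ⧸ Q) := by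
    refine ⟨fun x => ?_⟩
    obtain ⟨y, rfl⟩ := Ideal.Quotient.mk_surjective x
    obtain ⟨p, hp, hpy⟩ := hf y
    have h1 : IsIntegral (A ⧸ RingHom.ker ι) (Ideal.Quotient.mk Q y) := by
      refine ⟨p.map (Ideal.Quotient.mk (RingHom.ker ι)), hp.map _, ?_⟩
      rw [eval₂_map]
      have h2 : (algebraMap (A ⧸ RingHom.ker ι) (B ⧸ Q)).comp
          (Ideal.Quotient.mk (RingHom.ker ι)) = (Ideal.Quotient.mk Q).comp f := by
        ext a
        rfl
      rw [h2, ← hom_eval₂, hpy, map_zero]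
    exact h1.isAlgebraic
  let φ : (B ⧸ Q) →ₐ[A ⧸ RingHom.ker ι] Ω := IsAlgClosed.lift
  refine ⟨(φ : (B ⧸ Q) →+* Ω).comp (Ideal.Quotient.mk Q), ?_⟩
  ext a
  exact φ.commutes (Ideal.Quotient.mk (RingHom.ker ι) a)

/-- homomorphisms from the integers of a number field extend to all algebraic integers -/
theorem exists_iota' {F L Ω : Type} [Field F] [NumberField F] [Field L] [NumberField L] [Field Ω]
    [IsAlgClosed Ω] (j : L →+* AlgebraicClosure F) (ι : 𝓞 L →+* Ω) :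
    ∃ ι' : 𝓞 (AlgebraicClosure F) →+* Ω, ι'.comp (RingOfIntegers.mapRingHom j) = ι := by
  refine ext_hom (RingOfIntegers.mapRingHom j) ?_ ?_ ι
  · intro x
    obtain ⟨p, hp, hpx⟩ : IsIntegral ℤ x := RingOfIntegers.isIntegral x
    refine ⟨p.map (Int.castRingHom (𝓞 L)), hp.map _, ?_⟩
    rw [eval₂_map, show (RingOfIntegers.mapRingHom j).comp (Int.castRingHom (𝓞 L)) =
      algebraMap ℤ (𝓞 (AlgebraicClosure F)) from RingHom.ext_int _ _]
    exact hpx
  · intro x y hxy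
    apply RingOfIntegers.ext
    apply j.injective
    have := congrArg (fun z : 𝓞 (AlgebraicClosure F) => (z : AlgebraicClosure F)) hxy
    simpa using this

/-- products over the embeddings in `L` -/
theorem tmp_eq {F L Ω : Type} [Field F] [NumberField F] [Field L] [NumberField L] [Field Ω]
    (j : L →+* AlgebraicClosure F) (hj : Function.Bijective (fun τ : F →+* L => j.comp τ))
    (ι : 𝓞 L →+* Ω) (ι' : 𝓞 (AlgebraicClosure F) →+* Ω)
    (hι : ι'.comp (RingOfIntegers.mapRingHom j) = ι) (v : Pl F)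
    (e : (F →+* AlgebraicClosure F) → ℕ) (u : 𝓞 F) :
    tmp ι' v e u = ∏ τ : F →+* L,
      (if RingHom.ker (ι.comp (RingOfIntegers.mapRingHom τ)) = v.asIdeal then
        ι (RingOfIntegers.mapRingHom τ u) ^ e (j.comp τ) else 1) := by
  have h1 : ∀ τ : F →+* L, ι'.comp (RingOfIntegers.mapRingHom (j.comp τ)) =
      ι.comp (RingOfIntegers.mapRingHom τ) := by
    intro τ
    rw [← hι, RingHom.comp_assoc]
    congr 1
  unfold tmp
  rw [← Function.Bijective.prod_comp hj (fun τ' : F →+* AlgebraicClosure F =>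
    if RingHom.ker (ι'.comp (RingOfIntegers.mapRingHom τ')) = v.asIdeal then
      ι' (RingOfIntegers.mapRingHom τ' u) ^ e τ' else 1)]
  refine Finset.prod_congr rfl fun τ _ => ?_
  have h2 : ι' (RingOfIntegers.mapRingHom (j.comp τ) u) = ι (RingOfIntegers.mapRingHom τ u) :=
    RingHom.congr_fun (h1 τ) u
  simp only [h1, h2]

section

variable {F L : Type} [Field F] [Field L] [NumberField L] {n m : ℕ}
  {b : Blo n m L} {l : ℕ} [Fact l.Prime] {Ω : Type} [Field Ω]
  {r : Gal F →* Matrix.GeneralLinearGroup (Fin n) ℤ_[l]} {ϑ : ℤ_[l] →+* Ω} {ι : 𝓞 L →+* Ω}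
  {R : Gal F →* Matrix (Fin m) (Fin m) Ω}

theorem blo_PQ (b : Blo n m L) (ι : 𝓞 L →+* Ω) :
    b.P.map ι * b.Q.map ι = (b.N : Ω) • (1 : Matrix (Fin m) (Fin m) Ω) := by
  rw [← Matrix.map_mul, b.PQ]
  ext i j
  rw [Matrix.map_apply, Matrix.smul_apply, Matrix.smul_apply, Matrix.one_apply, Matrix.one_apply]
  split_ifs <;> simp

/-- matrices determined by their products with `P` -/
theorem blo_cancel (b : Blo n m L) (hN : (b.N : Ω) ≠ 0) {X Y : Matrix (Fin m) (Fin m) Ω}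
    (h : X * b.P.map ι = Y * b.P.map ι) : X = Y := by
  have h1 := congrArg (fun Z => Z * b.Q.map ι) h
  simp only [Matrix.mul_assoc, blo_PQ, Matrix.mul_smul, Matrix.mul_one] at h1
  have h2 := congrArg (fun Z => (b.N : Ω)⁻¹ • Z) h1
  simpa only [smul_smul, inv_mul_cancel₀ hN, one_smul] using h2

theorem at_one (hl : (l : Ω) = 0) (hA : b.At r ϑ ι R) (g : Gal F) (hg : res r g = 1) :
    R g = 1 := by
  have h1 : (r g : Matrix (Fin n) (Fin n) ℤ_[l]).map ϑ = 1 := by
    ext i j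
    have h2 : (r g : Matrix (Fin n) (Fin n) ℤ_[l]) i j - (1 : Matrix (Fin n) (Fin n) ℤ_[l]) i j ∈
        RingHom.ker (PadicInt.toZMod (p := l)) := by
      rw [RingHom.mem_ker, map_sub]
      have h3 := congrFun (congrFun hg i) j
      rw [res_coe, Matrix.map_apply] at h3
      rw [h3, Matrix.one_apply, Matrix.one_apply]
      split_ifs <;> simp
    rw [PadicInt.ker_toZMod, PadicInt.maximalIdeal_eq_span_p, Ideal.mem_span_singleton] at h2
    obtain ⟨z, hz⟩ := h2
    have h3 : ϑ ((r g : Matrix (Fin n) (Fin n) ℤ_[l]) i j -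
        (1 : Matrix (Fin n) (Fin n) ℤ_[l]) i j) = 0 := by
      rw [hz, map_mul, map_natCast, hl, zero_mul]
    rw [map_sub, sub_eq_zero] at h3
    rw [Matrix.map_apply, h3, Matrix.one_apply, Matrix.one_apply]
    split_ifs <;> simp
  refine blo_cancel b (ι := ι) hA.1 ?_
  rw [← hA.2 g, h1, Matrix.mul_one, Matrix.one_mul]

theorem at_unip (hA : b.At r ϑ ι R) (g : Gal F) {k : ℕ} (hg : (rat r g - 1) ^ k = 0) :
    (R g - 1) ^ k = 0 := by
  have h1 : ((r g : Matrix (Fin n) (Fin n) ℤ_[l]) - 1) ^ k = 0 := by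
    have h5 : ((algebraMap ℤ_[l] ℚ_[l]).mapMatrix (m := Fin n))
        (((r g : Matrix (Fin n) (Fin n) ℤ_[l]) - 1) ^ k) = 0 := by
      rw [map_pow, map_sub, map_one]
      exact hg
    have h6 : Function.Injective ((algebraMap ℤ_[l] ℚ_[l]).mapMatrix (m := Fin n)) :=
      Matrix.map_injective (IsFractionRing.injective ℤ_[l] ℚ_[l])
    exact h6 (by rw [h5, map_zero])
  have h2 : ((r g : Matrix (Fin n) (Fin n) ℤ_[l]).map ϑ - 1) ^ k = 0 := by
    have h7 := congrArg (ϑ.mapMatrix (m := Fin n)) h1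
    rw [map_pow, map_sub, map_one, map_zero] at h7
    exact h7
  have h3 : ∀ i : ℕ, b.P.map ι * ((r g : Matrix (Fin n) (Fin n) ℤ_[l]).map ϑ - 1) ^ i =
      (R g - 1) ^ i * b.P.map ι := by
    intro i
    induction i with
    | zero => rw [pow_zero, pow_zero, Matrix.mul_one, Matrix.one_mul]
    | succ i ih =>
      rw [pow_succ', ← Matrix.mul_assoc, Matrix.mul_sub, hA.2 g, Matrix.mul_one,
        show R g * b.P.map ι - b.P.map ι = (R g - 1) * b.P.map ι by
          rw [Matrix.sub_mul, Matrix.one_mul], Matrix.mul_assoc, ih, ← Matrix.mul_assoc,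
        ← pow_succ']
  refine blo_cancel b (ι := ι) hA.1 ?_
  rw [← h3 k, h2, Matrix.mul_zero, Matrix.zero_mul]

/-- extension of scalars -/
theorem at_ext (hA : b.At r ϑ ι R) {Ω' : Type} [Field Ω'] (al : Ω →+* Ω') :
    b.At r (al.comp ϑ) (al.comp ι) (mapk al R) := by
  refine ⟨?_, fun g => ?_⟩
  · have h1 : (b.N : Ω') = al (b.N : Ω) := by rw [map_natCast]
    rw [h1]
    exact (map_ne_zero al).2 hA.1
  · have h1 : b.P.map (al.comp ι) = (b.P.map ι).map al := by
      rw [Matrix.map_map]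
      rfl
    have h2 : (r g : Matrix (Fin n) (Fin n) ℤ_[l]).map (al.comp ϑ) =
        ((r g : Matrix (Fin n) (Fin n) ℤ_[l]).map ϑ).map al := by
      rw [Matrix.map_map]
      rfl
    have h3 : mapk al R g = (R g).map al := rfl
    rw [h1, h2, h3, ← Matrix.map_mul, hA.2 g, Matrix.map_mul]

end

theorem sub_ext {G K Ω : Type} [Group G] [Field K] [Field Ω] (al : K →+* Ω) {n m : ℕ}
    {R : G →* Matrix (Fin n) (Fin n) K} {B : Matrix (Fin n) (Fin m) K}
    {A : G → Matrix (Fin m) (Fin m) K} (h : IsSub R B A) :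
    IsSub (mapk al R) (B.map al) (fun g => (A g).map al) := by
  obtain ⟨C', hC'⟩ := h.1
  refine ⟨⟨C'.map al, ?_⟩, fun g => ?_⟩
  · rw [← Matrix.map_mul, hC']
    exact Matrix.map_one al (map_zero al) (map_one al)
  · have h3 : mapk al R g = (R g).map al := rfl
    rw [h3, ← Matrix.map_mul, h.2 g, Matrix.map_mul]

/-- reducible reductions over algebraically closed fields -/
theorem red_setup {F L : Type} [Field F] [NumberField F] [Field L] [NumberField L] {n m : ℕ}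
    (b : Blo n m L) (ρ : Fml F n) (hI : ¬ b.Irl ρ) (c : ℕ) :
    ∃ (l : ℕ) (_ : Fact l.Prime) (Ω : Type) (_ : Field Ω) (_ : IsAlgClosed Ω) (ϑ : ℤ_[l] →+* Ω)
      (ι : 𝓞 L →+* Ω) (R : Gal F →* Matrix (Fin m) (Fin m) Ω) (j : ℕ)
      (B : Matrix (Fin m) (Fin j) Ω) (A : Gal F → Matrix (Fin j) (Fin j) Ω),
      c < l ∧ 0 < j ∧ j < m ∧ (l : Ω) = 0 ∧ b.At (ρ l) ϑ ι R ∧ IsSub R B A := by
  by_contra hcon
  apply hI
  refine ⟨c, ?_⟩
  intro l _ hl Ω _ ϑ ι R hl0 hA j B A hBA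
  by_contra hj
  push Not at hj
  apply hcon
  have hjm : j ≤ m := by
    obtain ⟨C', hC'⟩ := hBA.1
    have h1 := natDegree_le_of_dvd (sub_charpoly_dvd hC' (hBA.2 1)) (R 1).charpoly_monic.ne_zero
    rwa [Matrix.charpoly_natDegree_eq_dim, Matrix.charpoly_natDegree_eq_dim, Fintype.card_fin,
      Fintype.card_fin] at h1
  refine ⟨l, inferInstance, AlgebraicClosure Ω, inferInstance, inferInstance,
    (algebraMap Ω (AlgebraicClosure Ω)).comp ϑ, (algebraMap Ω (AlgebraicClosure Ω)).comp ι,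
    mapk (algebraMap Ω (AlgebraicClosure Ω)) R, j, B.map (algebraMap Ω (AlgebraicClosure Ω)),
    fun g => (A g).map (algebraMap Ω (AlgebraicClosure Ω)), hl, Nat.pos_of_ne_zero hj.1,
    lt_of_le_of_ne hjm hj.2, ?_, at_ext hA _, sub_ext _ hBA⟩
  rw [← map_natCast (algebraMap Ω (AlgebraicClosure Ω)), hl0, map_zero]

theorem st_XWD (hOVP : ST_OVP) (hCNV : ST_CNV) : ST_XWD := by
  intro F L _ _ _ _ _ _ n m h b ρ hUn hFL hI c
  obtain ⟨c₁, hc₁⟩ := hFL
  obtain ⟨l, _, Ω, _, _, ϑ, ι, R, j, B, A, hcl, hj0, hjm, hl0, hA, hBA⟩ :=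
    red_setup b ρ hI (max c c₁)
  obtain ⟨j₀, hj₀⟩ := hCNV F L
  obtain ⟨ι', hι'⟩ := exists_iota' (F := F) j₀ ι
  have hιl : ι' (l : 𝓞 (AlgebraicClosure F)) = 0 := by rw [map_natCast, hl0]
  have hf1 := hc₁ l (lt_of_le_of_lt (le_max_right _ _) hcl) Ω ϑ ι ι' R hl0 hA j B A hBA
  choose! J1 J1' hJ1 hJ1' using hf1
  choose vt hvt hlv using plOf (F := F) ι' l hιl
  refine ⟨l, inferInstance, j, lt_of_le_of_lt (le_max_left _ _) hcl, hj0, hjm, Ω, inferInstance,
    inferInstance, ϑ, ι, R, subDet hBA, fun τ => J1 (vt (j₀.comp τ)) (j₀.comp τ), hl0, hA,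
    ?_, ?_, ?_, ?_⟩
  · refine open_of_res (hUn.1 l) _ ?_
    intro g hg
    rw [MonoidHom.mem_ker]
    exact subDet_of_one hBA g (at_one hl0 hA g hg)
  · intro v hv 𝔓 h𝔓 σ hσ
    obtain ⟨p, f, hp, -, -, hO, hpv⟩ := (hOVP F).2.2.2.1 v 𝔓 h𝔓
    have hpl : p ≠ l := by
      rintro rfl
      exact hv hpv
    have h2 := at_unip hA σ (hUn.2 l p hp hpl 𝔓 hO σ hσ)
    obtain ⟨C', hC'⟩ := hBA.1
    apply Units.ext
    rw [Units.val_one, subDet_coe]
    exact unip_det _ (unip_sub hC' (hBA.2 σ) h2)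
  · intro v hv π hπ hπ2 𝔓 h𝔓 σ hσ u hu hT
    obtain ⟨a1, -⟩ := hJ1' v hv π hπ hπ2 𝔓 h𝔓 σ hσ u hu hT
    have hvv : ∀ τ, RingHom.ker (ι'.comp (RingOfIntegers.mapRingHom τ)) = v.asIdeal →
        vt τ = v := by
      intro τ hτ
      apply IsDedekindDomain.HeightOneSpectrum.ext
      rw [← hvt τ, hτ]
    rw [subDet_coe, ← tmp_eq j₀ hj₀ ι ι' hι' v (fun τ' => ∑ i ∈ J1 (vt τ') τ', h i) u, ← a1]
    congr 1
    refine tmp_congr ι' v _ _ u fun τ hτ => ?_
    rw [hvv τ hτ]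
  · intro g
    obtain ⟨C', hC'⟩ := hBA.1
    refine ⟨(A g).charpoly.roots, ?_, ?_, ?_⟩
    · exact Polynomial.roots.le_of_dvd (R g).charpoly_monic.ne_zero
        (sub_charpoly_dvd hC' (hBA.2 g))
    · rw [Polynomial.splits_iff_card_roots.1 (IsAlgClosed.splits _),
        Matrix.charpoly_natDegree_eq_dim, Fintype.card_fin]
    · rw [subDet_coe, Matrix.det_eq_prod_roots_charpoly]

end Pool.Agent.Helper27.REC

namespace REC

theorem st_XWD (hOVP : ST_OVP) (hCNV : ST_CNV) : ST_XWD :=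
  Pool.Agent.Helper27.REC.st_XWD hOVP hCNV

end REC
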