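import Pool.Agent.Helper52.REC.FD3
import Pool.Agent.Helper85.REC.Stmts13

set_option autoImplicit false

/-! REC, row WDT: the data of a stable subspace of an eigenspace of the coefficient field. -/

open scoped Classical
open NumberField Polynomial

namespace Pool.Agent.Helper27.REC

open _root_.REC
open Pool.Agent.Helper13.ZL (Pl q)
open MU
open Pool.Agent.Helper61.REC
open Pool.Agent.Helper52.REC

/-! ### Polynomials -/

/-- an irreducible integral polynomial is separable modulo all large primes -/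
theorem sep_mod (R : ℤ[X]) (hR : Irreducible (R.map (Int.castRingHom ℚ))) :
    ∃ c : ℕ, ∀ l : ℕ, l.Prime → c < l → ∀ (k : Type) [Field k], (l : k) = 0 →
      (R.map (Int.castRingHom k)).Separable := by
  obtain ⟨a, b, hab⟩ := hR.separable
  obtain ⟨s, hs, hsa⟩ := IsLocalization.integerNormalization_spec (nonZeroDivisors ℤ) (S := ℚ) a
  obtain ⟨t, ht, htb⟩ := IsLocalization.integerNormalization_spec (nonZeroDivisors ℤ) (S := ℚ) b
  set a' : ℤ[X] := IsLocalization.integerNormalization (nonZeroDivisors ℤ) a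
  set b' : ℤ[X] := IsLocalization.integerNormalization (nonZeroDivisors ℤ) b
  have hs0 : s ≠ 0 := nonZeroDivisors.ne_zero hs
  have ht0 : t ≠ 0 := nonZeroDivisors.ne_zero ht
  have key : C t * a' * R + C s * b' * derivative R = C (s * t) := by
    apply Polynomial.map_injective (Int.castRingHom ℚ) Int.cast_injective
    have e1 : a'.map (Int.castRingHom ℚ) = C (s : ℚ) * a := by
      rw [show Int.castRingHom ℚ = algebraMap ℤ ℚ from rfl, hsa, ← smul_eq_C_mul]
      ext i
      rw [coeff_smul, coeff_smul, smul_eq_mul, zsmul_eq_mul]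
    have e2 : b'.map (Int.castRingHom ℚ) = C (t : ℚ) * b := by
      rw [show Int.castRingHom ℚ = algebraMap ℤ ℚ from rfl, htb, ← smul_eq_C_mul]
      ext i
      rw [coeff_smul, coeff_smul, smul_eq_mul, zsmul_eq_mul]
    rw [Polynomial.map_add, Polynomial.map_mul, Polynomial.map_mul, Polynomial.map_mul,
      Polynomial.map_mul, map_C, map_C, map_C, e1, e2, ← derivative_map]
    have e3 : (C ((Int.castRingHom ℚ) (s * t)) : ℚ[X]) = C (s : ℚ) * C (t : ℚ) := by
      rw [← C_mul]
      congr 1
      simp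
    rw [e3]
    simp only [eq_intCast]
    linear_combination (C (s : ℚ) * C (t : ℚ)) * hab
  refine ⟨(s * t).natAbs, ?_⟩
  intro l hl hc k _ hlk
  have hst : (((s * t : ℤ)) : k) ≠ 0 := by
    intro h0
    have hch : CharP k l := by
      obtain ⟨p, hp⟩ := CharP.exists k
      have h1 : p ∣ l := (CharP.cast_eq_zero_iff k p l).1 hlk
      rcases (Nat.dvd_prime hl).1 h1 with h2 | h2
      · subst h2
        exact absurd (CharP.cast_eq_zero k 1) (by rw [Nat.cast_one]; exact one_ne_zero)
      · rw [← h2]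
        exact hp
    have h1 : (l : ℤ) ∣ s * t := (CharP.intCast_eq_zero_iff k l _).1 h0
    have h2 : l ∣ (s * t).natAbs := Int.natCast_dvd.1 h1
    have h3 : 0 < (s * t).natAbs := Int.natAbs_pos.2 (mul_ne_zero hs0 ht0)
    exact absurd (Nat.le_of_dvd h3 h2) (by omega)
  have key2 := congrArg (Polynomial.map (Int.castRingHom k)) key
  rw [Polynomial.map_add, Polynomial.map_mul, Polynomial.map_mul, Polynomial.map_mul,
      Polynomial.map_mul, map_C, map_C, map_C, ← derivative_map] at key2
  refine ⟨C (((s * t : ℤ) : k)⁻¹) * (C ((Int.castRingHom k) t) * a'.map (Int.castRingHom k)),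
    C (((s * t : ℤ) : k)⁻¹) * (C ((Int.castRingHom k) s) * b'.map (Int.castRingHom k)), ?_⟩
  have h5 : C (((s * t : ℤ) : k)⁻¹) * C ((Int.castRingHom k) (s * t)) = 1 := by
    rw [← C_mul, eq_intCast, inv_mul_cancel₀ hst, C_1]
  rw [mul_assoc, mul_assoc (C (((s * t : ℤ) : k)⁻¹)) (C ((Int.castRingHom k) s) * _), ← mul_add,
    key2, h5]

/-- the characteristic polynomial of an endomorphism which generates a field -/
theorem charpoly_eq_pow {n d : ℕ} (R : ℤ[X]) (om : Matrix (Fin n) (Fin n) ℤ) (hm : R.Monic)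
    (hi : Irreducible (R.map (Int.castRingHom ℚ))) (hr : aeval om R = 0)
    (hn : n = d * R.natDegree) : om.charpoly = R ^ d := by
  set P : ℚ[X] := om.charpoly.map (Int.castRingHom ℚ) with hP
  set Q : ℚ[X] := R.map (Int.castRingHom ℚ) with hQ
  have hPm : P.Monic := om.charpoly_monic.map _
  have hQm : Q.Monic := hm.map _
  set K := AlgebraicClosure ℚ
  -- every irreducible factor of `P` divides `Q`
  have hfac : ∀ p : ℚ[X], Irreducible p → p ∣ P → p ∣ Q := by
    intro p hp hpP
    by_contra hnd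
    have hco : IsCoprime p Q := (hp.isCoprime_or_dvd Q).resolve_right hnd
    obtain ⟨z, hz⟩ := IsAlgClosed.exists_aeval_eq_zero K p
      (Polynomial.degree_pos_of_irreducible hp).ne'
    have hzP : aeval z P = 0 := by
      obtain ⟨t, ht⟩ := hpP
      rw [ht, map_mul, hz, zero_mul]
    have hzQ : aeval z Q = 0 := by
      let omK : Matrix (Fin n) (Fin n) K := om.map (Int.castRingHom K)
      have h1 : omK.charpoly.IsRoot z := by
        rw [Matrix.charpoly_map, IsRoot.def, eval_map]
        rw [hP, aeval_def, eval₂_map] at hzP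
        rwa [show (algebraMap ℚ K).comp (Int.castRingHom ℚ) = Int.castRingHom K from
          RingHom.ext_int _ _] at hzP
      have h2 : (Matrix.scalar (Fin n) z - omK).det = 0 := by
        rw [← Matrix.eval_charpoly]
        exact h1
      obtain ⟨v, hv, hv0⟩ := Matrix.exists_mulVec_eq_zero_iff.2 h2
      have h3 : omK.mulVec v = z • v := by
        rw [Matrix.sub_mulVec, Matrix.scalar_apply, ← Matrix.smul_one_eq_diagonal,
          Matrix.smul_mulVec, Matrix.one_mulVec, sub_eq_zero] at hv0
        exact hv0.symm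
      have h4 : ∀ f : ℤ[X], (aeval omK f).mulVec v = aeval z f • v := by
        intro f
        induction f using Polynomial.induction_on' with
        | add f g hf hg => rw [map_add, map_add, Matrix.add_mulVec, hf, hg, add_smul]
        | monomial i a =>
          rw [aeval_monomial, aeval_monomial]
          have h5 : ∀ i : ℕ, (omK ^ i).mulVec v = z ^ i • v := by
            intro i
            induction i with
            | zero => rw [pow_zero, pow_zero, Matrix.one_mulVec, one_smul]
            | succ i ih => rw [pow_succ, ← Matrix.mulVec_mulVec, h3, Matrix.mulVec_smul, ih,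
                smul_smul, pow_succ, mul_comm]
          rw [← Matrix.mulVec_mulVec, h5, Matrix.mulVec_smul]
          have h6 : ((algebraMap ℤ (Matrix (Fin n) (Fin n) K)) a).mulVec v =
              (algebraMap ℤ K a) • v := by
            rw [eq_intCast, eq_intCast]
            rw [← zsmul_one, Matrix.smul_mulVec, Matrix.one_mulVec]
            funext i
            simp
          rw [h6, smul_smul, mul_comm]
      have h7 : aeval omK R = 0 := by
        have h8 : (Int.castRingHom K).mapMatrix (aeval om R) = aeval omK R := by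
          rw [aeval_def, aeval_def, hom_eval₂]
          congr 1
          exact RingHom.ext_int _ _
        rw [← h8, hr, map_zero]
      have h9 := h4 R
      rw [h7, Matrix.zero_mulVec] at h9
      rcases smul_eq_zero.1 h9.symm with h10 | h10
      · rw [hQ, aeval_def, eval₂_map, show (algebraMap ℚ K).comp (Int.castRingHom ℚ) =
          algebraMap ℤ K from RingHom.ext_int _ _]
        exact h10
      · exact absurd h10 hv
    obtain ⟨a, b, hab⟩ := hco
    have := congrArg (aeval z) hab
    rw [map_add, map_mul, map_mul, hz, hzQ, mul_zero, mul_zero, add_zero, map_one] at this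
    exact zero_ne_one this
  -- so it is equal to `Q`
  have hall : ∀ p ∈ UniqueFactorizationMonoid.normalizedFactors P, p = Q := by
    intro p hp
    have h1 : Irreducible p := UniqueFactorizationMonoid.irreducible_of_normalized_factor p hp
    have h2 : p ∣ Q := hfac p h1 (UniqueFactorizationMonoid.dvd_of_mem_normalizedFactors hp)
    have h3 : Associated p Q := h1.associated_of_dvd hi h2
    have h4 : normalize p = p := UniqueFactorizationMonoid.normalize_normalized_factor p hp
    have h5 : p.Monic := by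
      rw [← h4]
      exact Polynomial.monic_normalize h1.ne_zero
    exact eq_of_monic_of_associated h5 hQm h3
  have h1 := UniqueFactorizationMonoid.prod_normalizedFactors (a := P) hPm.ne_zero
  rw [Multiset.eq_replicate_of_mem hall, Multiset.prod_replicate] at h1
  set j := (UniqueFactorizationMonoid.normalizedFactors P).card
  have h2 : Q ^ j = P := eq_of_monic_of_associated (hQm.pow j) hPm h1
  have h3 : j * R.natDegree = n := by
    have := congrArg natDegree h2
    rw [hQm.natDegree_pow, hP, hQ, hm.natDegree_map, om.charpoly_monic.natDegree_map,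
      Matrix.charpoly_natDegree_eq_dim, Fintype.card_fin] at this
    exact this
  have h4 : 0 < R.natDegree := by
    have := Polynomial.natDegree_pos_iff_degree_pos.2 (Polynomial.degree_pos_of_irreducible hi)
    rwa [hQ, hm.natDegree_map] at this
  have h5 : j = d := Nat.eq_of_mul_eq_mul_right h4 (h3.trans hn)
  rw [h5] at h2
  apply Polynomial.map_injective (Int.castRingHom ℚ) Int.cast_injective
  rw [Polynomial.map_pow]
  exact h2.symm

/-- an eigenspace modulo `l` -/
theorem eig_dvd {k : Type} [Field k] {n m d : ℕ} (R : ℤ[X]) (om : Matrix (Fin n) (Fin n) ℤ)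
    (ho : om.charpoly = R ^ d) (μ : k) (B : Matrix (Fin n) (Fin m) k)
    (hB : ∃ C : Matrix (Fin m) (Fin n) k, C * B = 1)
    (he : om.map (Int.castRingHom k) * B = μ • B) :
    (Polynomial.X - C μ) ^ m ∣ (R.map (Int.castRingHom k)) ^ d := by
  obtain ⟨C', hC'⟩ := hB
  have h1 : (om.map (Int.castRingHom k)) * B = B * Matrix.diagonal (fun _ : Fin m => μ) := by
    rw [he, ← Matrix.smul_one_eq_diagonal, Matrix.mul_smul, Matrix.mul_one]
  have h2 := sub_charpoly_dvd hC' h1
  rw [Matrix.charpoly_diagonal, Finset.prod_const, Finset.card_univ, Fintype.card_fin,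
    Matrix.charpoly_map, ho, Polynomial.map_pow] at h2
  exact h2

theorem eig_le {k : Type} [Field k] {m d : ℕ} (f : k[X]) (hf : f.Separable) (μ : k)
    (h : (Polynomial.X - C μ) ^ m ∣ f ^ d) : m ≤ d := by
  have hf0 : f ≠ 0 := hf.ne_zero
  have h1 : m ≤ rootMultiplicity μ (f ^ d) :=
    (le_rootMultiplicity_iff (pow_ne_zero d hf0)).2 h
  have h2 : rootMultiplicity μ (f ^ d) = d * rootMultiplicity μ f := by
    rw [← count_roots, roots_pow, Multiset.count_nsmul, count_roots]
  have h3 : rootMultiplicity μ f ≤ 1 := by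
    rw [← count_roots]
    exact Multiset.nodup_iff_count_le_one.1 (nodup_roots hf) μ
  calc m ≤ d * rootMultiplicity μ f := by rw [← h2]; exact h1
    _ ≤ d * 1 := Nat.mul_le_mul_left d h3
    _ = d := mul_one d

theorem eig_root {k : Type} [Field k] {m d : ℕ} (f : k[X]) (hm : m ≠ 0) (μ : k)
    (h : (Polynomial.X - C μ) ^ m ∣ f ^ d) : f.IsRoot μ := by
  have h1 : (Polynomial.X - C μ) ∣ f ^ d := (dvd_pow_self _ hm).trans h
  have h2 : (f ^ d).IsRoot μ := dvd_iff_isRoot.1 h1
  rw [IsRoot.def, eval_pow] at h2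
  exact eq_zero_of_pow_eq_zero h2

/-- an algebraic integer -/
def mkO {Ω : Type} [Field Ω] (a : Ω) (h : IsIntegral ℤ a) : 𝓞 Ω := ⟨a, h⟩

theorem mkO_coe {Ω : Type} [Field Ω] (a : Ω) (h : IsIntegral ℤ a) : ((mkO a h : 𝓞 Ω) : Ω) = a :=
  rfl

/-- the roots of an integral polynomial in a field of characteristic `l` are reductions of
algebraic integers -/
theorem exists_lam {Ω : Type} [Field Ω] [IsAlgClosed Ω] {k : Type} [Field k]
    (ι : 𝓞 Ω →+* k) (R : ℤ[X]) (hR : R.Monic) (μ : k)
    (hμ : (R.map (Int.castRingHom k)).IsRoot μ) :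
    ∃ lam : 𝓞 Ω, aeval lam R = 0 ∧ ι lam = μ := by
  set s : Multiset Ω := (R.map (Int.castRingHom Ω)).roots with hs
  have hRm : (R.map (Int.castRingHom Ω)).Monic := hR.map _
  have hint : ∀ a ∈ s, IsIntegral ℤ a := by
    intro a ha
    rw [hs, mem_roots hRm.ne_zero, IsRoot.def, eval_map] at ha
    exact ⟨R, hR, ha⟩
  let t : Multiset (𝓞 Ω) := Multiset.pmap mkO s hint
  have ht : Multiset.map (fun a : 𝓞 Ω => (a : Ω)) t = s := by
    show Multiset.map (fun a : 𝓞 Ω => (a : Ω)) (Multiset.pmap mkO s hint) = s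
    rw [Multiset.map_pmap]
    exact (Multiset.pmap_eq_map (fun a => IsIntegral ℤ a) (fun a => a) s hint).trans
      (Multiset.map_id' s)
  have hprod : R.map (Int.castRingHom (𝓞 Ω)) = (t.map fun a => Polynomial.X - C a).prod := by
    apply Polynomial.map_injective (algebraMap (𝓞 Ω) Ω) RingOfIntegers.coe_injective
    rw [Polynomial.map_map, show (algebraMap (𝓞 Ω) Ω).comp (Int.castRingHom (𝓞 Ω)) =
      Int.castRingHom Ω from RingHom.ext_int _ _]
    have h1 := (IsAlgClosed.splits (R.map (Int.castRingHom Ω))).eq_prod_roots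
    rw [hRm.leadingCoeff, C_1, one_mul] at h1
    rw [h1, ← hs, ← ht, Multiset.map_map, Polynomial.map_multiset_prod, Multiset.map_map]
    congr 1
    refine Multiset.map_congr rfl fun a _ => ?_
    simp
  have h2 := congrArg (Polynomial.map ι) hprod
  rw [Polynomial.map_map, show ι.comp (Int.castRingHom (𝓞 Ω)) = Int.castRingHom k from
    RingHom.ext_int _ _, Polynomial.map_multiset_prod, Multiset.map_map] at h2
  rw [h2, IsRoot.def, eval_multiset_prod, Multiset.map_map, Multiset.prod_eq_zero_iff,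
    Multiset.mem_map] at hμ
  obtain ⟨a, ha, hae⟩ := hμ
  refine ⟨a, ?_, ?_⟩
  · have h3 : (R.map (Int.castRingHom (𝓞 Ω))).IsRoot a := by
      rw [hprod, IsRoot.def, eval_multiset_prod, Multiset.map_map, Multiset.prod_eq_zero_iff,
        Multiset.mem_map]
      refine ⟨a, ha, ?_⟩
      simp
    rw [IsRoot.def, eval_map] at h3
    exact h3
  · simp only [Function.comp, Polynomial.map_sub, Polynomial.map_X, Polynomial.map_C, eval_sub,
      eval_X, eval_C, sub_eq_zero] at hae
    exact hae.symm

/-! ### Unipotent matrices -/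

theorem unip_det {k : Type} [Field k] [IsAlgClosed k] {m N : ℕ} (A : Matrix (Fin m) (Fin m) k)
    (h : (A - 1) ^ N = 0) : A.det = 1 := by
  rw [Matrix.det_eq_prod_roots_charpoly]
  refine Multiset.prod_eq_one fun z hz => ?_
  rw [mem_roots A.charpoly_monic.ne_zero] at hz
  have h1 : (Matrix.scalar (Fin m) z - A).det = 0 := by
    rw [← Matrix.eval_charpoly]
    exact hz
  obtain ⟨v, hv, hv0⟩ := Matrix.exists_mulVec_eq_zero_iff.2 h1
  have h2 : (A - 1).mulVec v = (z - 1) • v := by
    rw [Matrix.sub_mulVec, Matrix.scalar_apply, ← Matrix.smul_one_eq_diagonal, Matrix.smul_mulVec,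
      Matrix.one_mulVec, sub_eq_zero] at hv0
    rw [Matrix.sub_mulVec, Matrix.one_mulVec, ← hv0, sub_smul, one_smul]
  have h3 : ∀ j : ℕ, ((A - 1) ^ j).mulVec v = (z - 1) ^ j • v := by
    intro j
    induction j with
    | zero => rw [pow_zero, pow_zero, Matrix.one_mulVec, one_smul]
    | succ j ih => rw [pow_succ, ← Matrix.mulVec_mulVec, h2, Matrix.mulVec_smul, ih, smul_smul,
        pow_succ, mul_comm]
  have h4 := h3 N
  rw [h, Matrix.zero_mulVec] at h4
  rcases smul_eq_zero.1 h4.symm with h5 | h5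
  · exact sub_eq_zero.1 (eq_zero_of_pow_eq_zero h5)
  · exact absurd h5 hv

/-- unipotent on a subspace -/
theorem unip_sub {k : Type} [Field k] {n m N : ℕ} {X : Matrix (Fin n) (Fin n) k}
    {B : Matrix (Fin n) (Fin m) k} {a : Matrix (Fin m) (Fin m) k}
    {C : Matrix (Fin m) (Fin n) k} (hC : C * B = 1) (hX : X * B = B * a)
    (h : (X - 1) ^ N = 0) : (a - 1) ^ N = 0 := by
  have h1 : ∀ j : ℕ, (X - 1) ^ j * B = B * (a - 1) ^ j := by
    intro j
    induction j with
    | zero => rw [pow_zero, pow_zero, Matrix.one_mul, Matrix.mul_one]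
    | succ j ih =>
      rw [pow_succ, Matrix.mul_assoc, Matrix.sub_mul, hX, Matrix.one_mul]
      rw [show B * a - B = B * (a - 1) by rw [Matrix.mul_sub, Matrix.mul_one]]
      rw [← Matrix.mul_assoc, ih, Matrix.mul_assoc, ← pow_succ]
  have h2 := h1 N
  rw [h, Matrix.zero_mul] at h2
  have h3 := congrArg (fun Z => C * Z) h2
  simp only [Matrix.mul_zero, ← Matrix.mul_assoc, hC, Matrix.one_mul] at h3
  exact h3.symm

section

variable {F : Type} [Field F] [NumberField F] {S : Finset ℕ} {n w : ℕ} {h : Fin n → ℕ}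

/-- inertia away from `l` is unipotent modulo `l` -/
theorem inr_unip' (M : Mot F S n w h) (hn : n ≠ 0) (l : ℕ) [Fact l.Prime] (p : ℕ)
    (hp : p.Prime) (hpl : p ≠ l) (𝔓 : Ideal (Zb F)) (h𝔓 : Over p 𝔓) (σ : Gal F)
    (hσ : CongPow 𝔓 1 σ) : (res (M.ρ l) σ - 1) ^ n = 0 := by
  refine eqvQ_unip (eqvQ_refl _) σ ?_
  by_cases hpS : p ∈ S
  · exact M.semistable l p hpS hpl 𝔓 h𝔓 σ hσ
  · have h1 := M.good l p hp hpS hpl 𝔓 h𝔓 σ hσ
    have h2 : rat (M.ρ l) σ = 1 := by
      rw [rat_coe, h1]
      ext i j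
      rw [Matrix.map_apply, Units.val_one, Matrix.one_apply, Matrix.one_apply]
      split_ifs <;> simp
    rw [h2, sub_self]
    exact zero_pow hn

end

theorem st_WDT (hOVP : ST_OVP) : ST_WDT := by
  intro F _ _ S hS n w h M R d om hact hFLT
  obtain ⟨c₁, hc₁⟩ := hFLT
  obtain ⟨c₂, hc₂⟩ := sep_mod R hact.irr
  refine ⟨max c₁ c₂, ?_⟩
  intro l hl hcl k _ κ μ m B A hBA hB hm
  have hcp : om.charpoly = R ^ d := charpoly_eq_pow R om hact.monic hact.irr hact.root hact.rank
  have hlk : (l : k) = 0 := by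
    rw [← map_natCast κ, ZMod.natCast_self, map_zero]
  have hsep : (R.map (Int.castRingHom k)).Separable :=
    hc₂ l hl.out (lt_of_le_of_lt (le_max_right _ _) hcl) k hlk
  have hdv := eig_dvd R om hcp μ B hBA.1 hB
  refine ⟨eig_le _ hsep μ hdv, ?_⟩
  have hn : n ≠ 0 := by
    rintro rfl
    obtain ⟨C', hC'⟩ := hBA.1
    have h1 := congrArg Matrix.trace hC'
    have h2 : C' * B = 0 := by
      ext i j
      rw [Matrix.mul_apply, Finset.univ_eq_empty, Finset.sum_empty]
      rfl
    have i0 : Fin m := ⟨0, Nat.pos_of_ne_zero hm⟩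
    have h3 := congrFun (congrFun hC' i0) i0
    rw [h2, Matrix.one_apply_eq] at h3
    exact zero_ne_one h3
  -- the algebraic closure
  set k' := AlgebraicClosure k
  let al : k →+* k' := algebraMap k k'
  let κ' : ZMod l →+* k' := al.comp κ
  let B' : Matrix (Fin n) (Fin m) k' := B.map al
  let A' : Gal F → Matrix (Fin m) (Fin m) k' := fun g => (A g).map al
  have hmap : ∀ g, mapk κ' (res (M.ρ l)) g = (mapk κ (res (M.ρ l)) g).map al := by
    intro g
    show (res (M.ρ l) g).map κ' = ((res (M.ρ l) g).map κ).map al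
    rw [Matrix.map_map]
    rfl
  have hBA' : IsSub (mapk κ' (res (M.ρ l))) B' A' := by
    obtain ⟨C', hC'⟩ := hBA.1
    refine ⟨⟨C'.map al, ?_⟩, fun g => ?_⟩
    · rw [← Matrix.map_mul, hC']
      exact Matrix.map_one al (map_zero al) (map_one al)
    · rw [hmap, ← Matrix.map_mul, hBA.2 g, Matrix.map_mul]
  have hB' : om.map (Int.castRingHom k') * B' = al μ • B' := by
    have h1 : om.map (Int.castRingHom k') = (om.map (Int.castRingHom k)).map al := by
      rw [Matrix.map_map]
      ext i j
      simp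
    rw [h1, ← Matrix.map_mul, hB]
    ext i j
    simp [B', Matrix.map_apply, Matrix.smul_apply]
  obtain ⟨ι, hι⟩ := exists_iota F l k' κ'
  have hroot : (R.map (Int.castRingHom k')).IsRoot (al μ) := by
    have hdv' := eig_dvd R om hcp (al μ) B' hBA'.1 hB'
    exact eig_root _ hm _ hdv'
  obtain ⟨lam, hlam, hιl⟩ := exists_lam ι R hact.monic (al μ) hroot
  obtain ⟨-, hf⟩ := hc₁ l (lt_of_le_of_lt (le_max_left _ _) hcl) (M.ρ l) (eqvQ_refl _)
  have hf1 := hf k' κ' ι m m B' A' B' A' 1 hBA' hBA' (by rw [Matrix.mul_one])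
  choose! J1 J1' hJ1 hJ1' using hf1
  choose vt hvt hlv using plOf (F := F) ι l hι
  refine ⟨fun τ => ∑ i ∈ J1 (vt τ) τ, h i, lam, fun τ =>
    ⟨J1 (vt τ) τ, (hJ1 (vt τ) (hlv τ) τ).2.1, rfl⟩, hlam, ?_⟩
  refine ⟨k', inferInstance, inferInstance, κ', ι, B', A', subDet hBA', hBA', ?_, ?_, ?_, ?_, ?_⟩
  · rw [hιl]
    exact hB'
  · intro g
    exact subDet_coe hBA' g
  · refine open_of_res (M.continuous l) _ ?_
    intro g hg
    have hg' : mapk κ' (res (M.ρ l)) g = 1 := by
      show (κ'.mapMatrix (m := Fin n)) (res (M.ρ l) g) = 1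
      rw [hg, map_one]
    rw [MonoidHom.mem_ker]
    exact subDet_of_one hBA' g hg'
  · intro v hv 𝔓 h𝔓 σ hσ
    obtain ⟨p, f, hp, -, -, hO, hpv⟩ := (hOVP F).2.2.2.1 v 𝔓 h𝔓
    have hpl : p ≠ l := by
      rintro rfl
      exact hv hpv
    have h1 := inr_unip' M hn l p hp hpl 𝔓 hO σ hσ
    have h2 : (mapk κ' (res (M.ρ l)) σ - 1) ^ n = 0 := by
      have h3 := congrArg (κ'.mapMatrix (m := Fin n)) h1
      rw [map_pow, map_sub, map_one, map_zero] at h3
      exact h3
    obtain ⟨C', hC'⟩ := hBA'.1
    apply Units.ext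
    rw [Units.val_one, subDet_coe]
    exact unip_det _ (unip_sub hC' (hBA'.2 σ) h2)
  · intro v hv π hπ hπ2 𝔓 h𝔓 σ hσ u hu hT
    obtain ⟨a1, -⟩ := hJ1' v hv π hπ hπ2 𝔓 h𝔓 σ hσ u hu hT
    have hvv : ∀ τ, RingHom.ker (ι.comp (RingOfIntegers.mapRingHom τ)) = v.asIdeal → vt τ = v := by
      intro τ hτ
      apply IsDedekindDomain.HeightOneSpectrum.ext
      rw [← hvt τ, hτ]
    rw [subDet_coe]
    rw [← a1]
    congr 1
    refine tmp_congr ι v _ _ u fun τ hτ => ?_
    rw [hvv τ hτ]

end Pool.Agent.Helper27.REC
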