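import Pool.Agent.Helper57.REC.All5
import Pool.Agent.Helper85.REC.All5
import Pool.Agent.Helper8.REC.TMB
import Pool.Agent.Helper18.REC.KGL
import Pool.Agent.Helper8.REC.KJJ
import Pool.Agent.Helper78.REC.DNE
import Pool.Agent.Helper29.REC.TWH
import Pool.Agent.Helper18.REC.TRN
import Pool.Agent.Helper29.REC.IKR
import Pool.Agent.Helper10.REC.INS
import Pool.Agent.Helper35.REC.PTH
import Pool.Agent.Helper78.REC.GSL
import Pool.Agent.Helper95.REC.GSP
import Pool.Agent.Helper56.REC.GNR
import Pool.Agent.Helper99.REC.SMI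
import Pool.Agent.Helper89.REC.VAL
import Pool.Agent.Helper29.REC.FRK
import Pool.Agent.Helper59.REC.LHM
import Pool.Agent.Helper96.REC.ATA
import Pool.Agent.Helper85.REC.BCF
import Pool.Agent.Helper3.REC.FLD
import Pool.Agent.Helper8.REC.GTS
import Pool.Agent.Helper89.REC.INI
import Pool.Agent.Helper89.REC.PRM
import Pool.Agent.Helper95.REC.GNL
import Pool.Agent.Helper99.REC.DGO
import Pool.Agent.Helper78.REC.SP0
import Pool.Agent.Helper3.REC.SP1
import Pool.Agent.Helper27.REC.MAI
import Pool.Agent.Helper59.REC.TGR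
import Pool.Agent.Helper8.REC.TGF
import Pool.Agent.Helper36.REC.DND
import Pool.Agent.Helper64.REC.GSO
import Pool.Agent.Helper64.REC.XDM
import Pool.Agent.Helper85.REC.GNK
import Pool.Agent.Helper92.REC.ALG
import Pool.Agent.Helper3.REC.INK
import Pool.Agent.Helper3.REC.MSS
import Pool.Agent.Helper8.REC.SYT
import Pool.Agent.Helper10.REC.GNS
import Pool.Agent.Helper93.REC.IXB

/-!
# Assembly, sixth part: the tensor category generated by motives with large monodromy
-/

set_option autoImplicit false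

open NumberField MU

namespace REC

theorem all_TMB : ST_TMB := TMB
theorem all_KGL : ST_KGL := KGL
theorem all_KJJ : ST_KJJ := KJJ
theorem all_TWH : ST_TWH := TWH all_TMB
theorem all_TRN : ST_TRN := TRN
theorem all_IKR : ST_IKR := IKR
theorem all_INS : ST_INS := INS all_TMB all_TRN all_IKR
theorem all_PTH : ST_PTH := PTH all_TMB
theorem all_GSL : ST_GSL := GSL
theorem all_GSP : ST_GSP := GSP
theorem all_VAL : ST_VAL := VAL
theorem all_FRK : ST_FRK := FRK
theorem all_ATA : ST_ATA := ATA
theorem all_BCF : ST_BCF := BCF all_BCT all_IXB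
theorem all_FLD : ST_FLD := FLD all_TSR all_TCH all_DIG all_EMF st_OVP
theorem all_FXF : ST_FXF := st_FXF st_BCH
theorem all_GTS : ST_GTS := GTS all_XUN all_BCF all_FLD all_XBG all_XIR all_FXF
theorem all_INI : ST_INI := INI all_TSR all_TCH
theorem all_PRM : ST_PRM := PRM all_INI st_HER
theorem all_GNL : ST_GNL := GNL st_CYC
theorem all_DGO : ST_DGO := DGO all_PBR
theorem all_DND : ST_DND := DND all_TMB all_KGL all_KJJ
theorem all_DNE : ST_DNE := DNE all_TMB all_DND
theorem all_GSO : ST_GSO := GSO
theorem all_GNR : ST_GNR := GNR all_TMB all_PTH all_GSL all_GSP all_GSO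
theorem all_SMI : ST_SMI := SMI all_TMB all_GNR
theorem all_LHM : ST_LHM := LHM all_TMB all_DNE all_TWH all_INS all_SMI
theorem all_ALG : ST_ALG := ALG all_XDS all_XLF all_FRK
theorem all_GNK : ST_GNK := GNK st_CPW all_IXB st_CYC
theorem all_XDM : ST_XDM := st_XDM
theorem all_SP0 : ST_SP0 := SP0 all_XDM st_CYC all_VAL
theorem all_SP1 : ST_SP1 := SP1 all_SP0 all_FXF all_IXB all_BCF all_BCT
theorem all_MAI : ST_MAI := MAI all_VAL all_ATA all_PRM all_GNL all_SP1 all_LHM all_ALG all_TMB
theorem all_TGR : ST_TGR := TGR all_GTS all_XUN all_DGO all_FXF all_IXB all_BCF all_BCT all_GNK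
  all_MAI all_AVS all_AVL all_SSL
theorem all_TGF : ST_TGF := TGF all_FINC all_TGR

/-! The class `TGn` contains the class `TCt` (tensor category generated by motives of rank two). -/

theorem all_MSS : ST_MSS := MSS
theorem all_SYT : ST_SYT := SYT
theorem all_GNS : ST_GNS := GNS all_JNT st_FRB
theorem all_INK : ST_INK := INK all_BIG all_MSS all_SYT all_GNS

end REC
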