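import Pool.Agent.Helper27.REC.DefX
import Pool.Agent.Helper85.REC.Stmts14b

/-!
# The tensor category generated by motives with large monodromy (definitions)
-/

set_option autoImplicit false

open scoped Classical
open NumberField Polynomial

namespace REC

open Pool.Agent.Helper13.ZL (Pl q)
open MU

/-- families of square matrices -/
abbrev MM {t : ℕ} (m : Fin t → ℕ) (R : Type) : Type := ∀ i, Matrix (Fin (m i)) (Fin (m i)) R

/-- the indices of the mixed tensor power of type `(c, c')` -/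
abbrev Tix {t : ℕ} (m c c' : Fin t → ℕ) : Type :=
  ∀ i, (Fin (c i) → Fin (m i)) × (Fin (c' i) → Fin (m i))

section

variable {R : Type} [CommRing R] {t : ℕ} {m : Fin t → ℕ}

/-- The action of `x` on the tensor product of the spaces `V_i ^ (⊗ c i) ⊗ (V_i^*) ^ (⊗ c' i)`,
where `V_i` has dimension `m i`; the matrices `y i` are the inverses of the matrices `x i`. -/
def tmy (c c' : Fin t → ℕ) (x y : MM m R) : Matrix (Tix m c c') (Tix m c c') R :=
  Matrix.of fun p p' => ∏ i, ((∏ j, x i ((p i).1 j) ((p' i).1 j)) *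
    ∏ j, y i ((p' i).2 j) ((p i).2 j))

end

/-- integral matrices over `R` -/
def jm {t : ℕ} {m : Fin t → ℕ} (R : Type) [CommRing R] (J : MM m ℤ) : MM m R :=
  fun i => (J i).map (Int.castRingHom R)

/-- `J i = 0`, or `J i` is an orthogonal matrix which is symmetric or alternating -/
def Jok {t : ℕ} {m : Fin t → ℕ} (J : MM m ℤ) : Prop :=
  ∀ i, 0 < m i ∧ (J i = 0 ∨ (J i * (J i).transpose = 1 ∧
    ((J i).transpose = J i ∨ (J i).transpose = -J i)))

/-- The numbers `α i x` have no multiplicative relation of size at most `D` and of degree `0` for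
every `i`, except those which follow from the relations `α i x * α i y = q i` (for `i` with not
`z i`). -/
def NoRel {K : Type} [Field K] {t : ℕ} {m : Fin t → ℕ} (z : Fin t → Prop) (q : Fin t → K)
    (D : ℕ) (α : ∀ i, Fin (m i) → K) : Prop :=
  ∀ e : ∀ i, Fin (m i) → ℤ, (∀ i x, |e i x| ≤ D) → (∀ i, ∑ x, e i x = 0) →
    ∏ i, ∏ x, α i x ^ e i x = 1 →
    ∀ i x, (z i → e i x = 0) ∧ (¬ z i → ∀ y, α i x * α i y = q i → e i x = e i y)

section

variable {n m : ℕ} {L : Type} [Field L] [NumberField L] {F : Type} [Field F] [NumberField F]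

/-- The theory of Fontaine and Laffaille for the summand (see `FLC`): for large `l` the inertia
groups at the primes over `l` act on the semisimplification of its reductions by powers of the
fundamental character `z` of some level `r`; the digits of the exponents are given by Hodge types
(which are different, if `d` holds). -/
def Blo.FLc (b : Blo n m L) (h : Fin n → ℕ) (d : Prop) (ρ : Fml F n) : Prop :=
  ∃ c : ℕ, ∀ (l : ℕ) [Fact l.Prime], c < l → ∀ (Ω : Type) [Field Ω] (ϑ : ℤ_[l] →+* Ω)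
    (ι : 𝓞 L →+* Ω) (R : Gal F →* Matrix (Fin m) (Fin m) Ω), (l : Ω) = 0 → b.At (ρ l) ϑ ι R →
    ∀ θ : Zb F →+* Ω, ∃ (r : ℕ) (s : Fin r → Fin m → Fin n), 0 < r ∧
      (∀ i, Function.Injective (s i) ∧ (d → Function.Injective fun x => h (s i x))) ∧
      ∀ (σ : Gal F) (y z : Zb F), CongPow (RingHom.ker θ) 1 σ → y ^ (l ^ r - 1) = l →
        (z : AlgebraicClosure F) * (y : AlgebraicClosure F) = σ (y : AlgebraicClosure F) →
        (R σ⁻¹).charpoly =
          ∏ x, (Polynomial.X - C (θ z ^ (∑ i : Fin r, l ^ (i : ℕ) * h (s i x))))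

/-- on every open subgroup the summand is irreducible in almost all characteristics -/
def Blo.Sir (b : Blo n m L) (ρ : Fml F n) : Prop :=
  ∀ H : Subgroup (Gal F), IsOpen (H : Set (Gal F)) → ∃ c : ℕ, ∀ (l : ℕ) [Fact l.Prime], c < l →
    ∀ (Ω : Type) [Field Ω] (ϑ : ℤ_[l] →+* Ω) (ι : 𝓞 L →+* Ω)
      (R : Gal F →* Matrix (Fin m) (Fin m) Ω), (l : Ω) = 0 → b.At (ρ l) ϑ ι R →
        IsIrr (R.comp H.subtype)

/-- on every open subgroup the summand is irreducible in characteristic zero -/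
def Blo.Si0 (b : Blo n m L) (ρ : Fml F n) : Prop :=
  ∀ H : Subgroup (Gal F), IsOpen (H : Set (Gal F)) → ∀ (l : ℕ) [Fact l.Prime] (Ω : Type) [Field Ω]
    [CharZero Ω] (ϑ : ℤ_[l] →+* Ω) (ι : 𝓞 L →+* Ω) (R : Gal F →* Matrix (Fin m) (Fin m) Ω),
    b.At (ρ l) ϑ ι R → IsIrr (R.comp H.subtype)

/-- The generating summands: with large image; or of rank two, regular and irreducible in
characteristic zero on every open subgroup; or irreducible in almost all characteristics on every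
open subgroup. -/
def Blo.Gty (b : Blo n m L) (h : Fin n → ℕ) (ρ : Fml F n) : Prop :=
  (b.FLc h False ρ ∧ (b.Sir ρ ∨ b.Big ρ)) ∨ (m = 2 ∧ b.Si0 ρ ∧ b.FLc h True ρ)

end

/-- the value of the cyclotomic character at `g⁻¹` -/
noncomputable def cyv {F : Type} [Field F] [NumberField F] {l : ℕ} [Fact l.Prime] {A : Type}
    [CommRing A] (ϑ : ℤ_[l] →+* A) (g : Gal F) : A :=
  ϑ (((cyc l F g⁻¹ : ℤ_[l]ˣ) : ℤ_[l]))

section

variable {L : Type} [Field L] [NumberField L] {F : Type} [Field F] [NumberField F] {t : ℕ}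
  {n₂ m : Fin t → ℕ}

/-- the blocks preserve the forms `J i` with values in the powers `-w i` of the cyclotomic
character; if the rank `m i = 2 r` is even the determinant is the power `- r (w i)` of this
character -/
def Frm (J : MM m ℤ) (w : Fin t → ℕ) (b : ∀ i, Blo (n₂ i) (m i) L) (ρ : ∀ i, Fml F (n₂ i)) :
    Prop :=
  ∀ (i : Fin t) (l : ℕ) [Fact l.Prime] (Ω : Type) [Field Ω] (ϑ : ℤ_[l] →+* Ω) (ι : 𝓞 L →+* Ω)
    (R : Gal F →* Matrix (Fin (m i)) (Fin (m i)) Ω), (b i).At (ρ i l) ϑ ι R → ∀ g,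
    (R g).transpose * jm Ω J i * R g = cyv ϑ g ^ w i • jm Ω J i ∧
      (J i ≠ 0 → ∀ r : ℕ, m i = 2 * r → (R g).det = (cyv ϑ g ^ w i) ^ r)

/-- For every `D` there is a geometric Frobenius element whose eigenvalues on the blocks have no
multiplicative relations of size at most `D` and of degree `0` on each block, except those which
follow from the forms. -/
def Gnr (S : Finset ℕ) (J : MM m ℤ) (w : Fin t → ℕ) (b : ∀ i, Blo (n₂ i) (m i) L)
    (ρ : ∀ i, Fml F (n₂ i)) : Prop :=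
  ∀ D : ℕ, ∃ (p : ℕ) (𝔓 : Ideal (Zb F)) (k : ℕ) (σ : Gal F), p.Prime ∧ p ∉ S ∧ Over p 𝔓 ∧ 1 ≤ k ∧
    CongPow 𝔓 (p ^ k) σ ∧ ∃ (l : ℕ) (_ : Fact l.Prime) (Ω : Type) (_ : Field Ω) (_ : CharZero Ω)
      (ϑ : ℤ_[l] →+* Ω) (ι : 𝓞 L →+* Ω) (R : ∀ i, Gal F →* Matrix (Fin (m i)) (Fin (m i)) Ω)
      (α : ∀ i, Fin (m i) → Ω), l ≠ p ∧ (∀ i, (b i).At (ρ i l) ϑ ι (R i) ∧
        (R i σ⁻¹).charpoly = ∏ x, (Polynomial.X - C (α i x))) ∧
      NoRel (fun i => J i = 0) (fun i => (p : Ω) ^ (k * w i)) D α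

/-- `M ⊗ L` is a direct summand of the direct sum of the tensor products of the mixed tensor powers
of the blocks with the families `B a`, twisted by powers of the cyclotomic character; here `M` is
given by `μ`, and `P`, `Q` are the inclusion and the projection (times a number). -/
def Smd {k n : ℕ} {n₁ : Fin k → ℕ} (b : ∀ i, Blo (n₂ i) (m i) L) (ρ : ∀ i, Fml F (n₂ i))
    (c c' : Fin k → Fin t → ℕ) (B : ∀ a, Fml F (n₁ a)) (e : Fin k → ℤ) (μ : Fml F n) : Prop :=
  ∃ (N : ℕ) (P : ∀ a, Matrix (Tix m (c a) (c' a) × Fin (n₁ a)) (Fin n) (𝓞 L))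
    (Q : ∀ a, Matrix (Fin n) (Tix m (c a) (c' a) × Fin (n₁ a)) (𝓞 L)), 0 < N ∧
    ∑ a, Q a * P a = (N : 𝓞 L) • (1 : Matrix (Fin n) (Fin n) (𝓞 L)) ∧
    ∀ (l : ℕ) [Fact l.Prime] (Ω : Type) [Field Ω] (ϑ : ℤ_[l] →+* Ω) (ι : 𝓞 L →+* Ω)
      (R : ∀ i, Gal F →* Matrix (Fin (m i)) (Fin (m i)) Ω), (N : Ω) ≠ 0 →
      (∀ i, (b i).At (ρ i l) ϑ ι (R i)) → ∀ (a : Fin k) (g : Gal F),
      (P a).map ι * (μ l g : Matrix (Fin n) (Fin n) ℤ_[l]).map ϑ =
        Matrix.kroneckerMap (· * ·) (tmy (c a) (c' a) (fun i => R i g) (fun i => R i g⁻¹))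
          ((twc (B a l) (e a) g).map ϑ) * (P a).map ι ∧
      (μ l g : Matrix (Fin n) (Fin n) ℤ_[l]).map ϑ * (Q a).map ι =
        (Q a).map ι * Matrix.kroneckerMap (· * ·)
          (tmy (c a) (c' a) (fun i => R i g) (fun i => R i g⁻¹)) ((twc (B a l) (e a) g).map ϑ)

end

section

variable {F : Type} [Field F] [NumberField F] {S : Finset ℕ} {n w : ℕ} {h : Fin n → ℕ}

/-- Over some finite extension `K` of `F` and some number field `L` of coefficients the motive `M`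
is a direct summand of a direct sum of tensor products
`b 1 ^ (⊗ c 1) ⊗ (b 1)^* ^ (⊗ c' 1) ⊗ ⋯ ⊗ b t ^ (⊗ c t) ⊗ (b t)^* ^ (⊗ c' t) ⊗ B (e)`, where the
`B` are potentially abelian motives, and the generators `b i` are blocks of motives `N i` with the
property `Gty`, possibly with forms `J i`, and with Frobenius elements without multiplicative
relations. -/
def TGn (M : Mot F S n w h) : Prop :=
  ∃ (K : Type) (_ : Field K) (_ : NumberField K) (_ : Algebra F K)
    (j : AlgebraicClosure F ≃+* AlgebraicClosure K) (r : Gal K →* Gal F)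
    (L : Type) (_ : Field L) (_ : NumberField L) (S' : Finset ℕ)
    (t : ℕ) (n₂ w₂ : Fin t → ℕ) (h₂ : ∀ i, Fin (n₂ i) → ℕ) (N : ∀ i, Mot K S' (n₂ i) (w₂ i) (h₂ i))
    (m : Fin t → ℕ) (b : ∀ i, Blo (n₂ i) (m i) L) (J : MM m ℤ)
    (k : ℕ) (c c' : Fin k → Fin t → ℕ) (n₁ w₁ : Fin k → ℕ) (h₁ : ∀ a, Fin (n₁ a) → ℕ)
    (B : ∀ a, Mot K S' (n₁ a) (w₁ a) (h₁ a)) (e : Fin k → ℤ),
    IsBC F K j r ∧ (∀ p ∈ S', p.Prime) ∧ Jok J ∧
    (∀ i, (b i).Stb (fun l _ => (N i).ρ l) ∧ (b i).Cmp S' (fun l _ => (N i).ρ l) ∧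
      (b i).Gty (h₂ i) (fun l _ => (N i).ρ l)) ∧
    Frm J w₂ b (fun i l _ => (N i).ρ l) ∧ Gnr S' J w₂ b (fun i l _ => (N i).ρ l) ∧
    (∀ a, Pab (B a)) ∧
    Smd b (fun i l _ => (N i).ρ l) c c' (fun a l _ => (B a).ρ l) e (fun l _ => (M.ρ l).comp r)

end

end REC
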