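import Pool.Agent.Helper57.REC.StmtsX
import Pool.Agent.Helper85.REC.Stmts14b
import Pool.Agent.Helper27.REC.DefT

/-!
# Reciprocity, part 15: the tensor category generated by motives with large monodromy
Proofs: /team-store/h27_tg_blueprint.md   [helper27]
-/

set_option autoImplicit false

open scoped Classical
open NumberField Polynomial

namespace REC

open Pool.Agent.Helper13.ZL (Pl q)
open MU

/-! ## A. Mixed tensor powers -/

section

variable {R : Type} [CommRing R] {t : ℕ} {m : Fin t → ℕ}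

/-- the action of `X` in the Lie algebra: the derivative of `tmy c c' (1 + s X) (1 - s X)` -/
noncomputable def dtm (c c' : Fin t → ℕ) (X : MM m R) : Matrix (Tix m c c') (Tix m c c') R :=
  Matrix.of fun p p' => (tmy c c'
    (fun i => (1 : Matrix (Fin (m i)) (Fin (m i)) R[X]) + (Polynomial.X : R[X]) • (X i).map C)
    (fun i => (1 : Matrix (Fin (m i)) (Fin (m i)) R[X]) - (Polynomial.X : R[X]) • (X i).map C)
    p p').coeff 1

/-- the weight of an index -/
noncomputable def wgt {c c' : Fin t → ℕ} (p : Tix m c c') (i : Fin t) (x : Fin (m i)) : ℤ :=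
  ((Finset.univ.filter fun j => (p i).1 j = x).card : ℤ) -
    ((Finset.univ.filter fun j => (p i).2 j = x).card : ℤ)

/-- the Lie algebra of the matrices which preserve the forms `J i` up to factors (`J i = 0`: no
condition) -/
def InG (J X : MM m R) : Prop := ∀ i, ∃ a : R, (X i).transpose * J i + J i * X i = a • J i

/-- the Lie algebra of the matrices of trace `0` which preserve the forms `J i` -/
def InS (J X : MM m R) : Prop := ∀ i, (X i).trace = 0 ∧ (X i).transpose * J i + J i * X i = 0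

end

/-- TMB: basic properties. -/
def ST_TMB : Prop :=
  ∀ (R : Type) [CommRing R] (t : ℕ) (m c c' : Fin t → ℕ),
    (∀ x x' y y' : MM m R, tmy c c' (fun i => x i * x' i) (fun i => y' i * y i) =
      tmy c c' x y * tmy c c' x' y') ∧
    (tmy c c' (fun _ => 1) (fun _ => 1) = (1 : Matrix (Tix m c c') (Tix m c c') R)) ∧
    (∀ (R' : Type) [CommRing R'] (f : R →+* R') (x y : MM m R),
      (tmy c c' x y).map f = tmy c c' (fun i => (x i).map f) (fun i => (y i).map f) ∧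
      (dtm c c' x).map f = dtm c c' (fun i => (x i).map f)) ∧
    (∀ x y : MM m R, (tmy c c' x y).transpose =
        tmy c c' (fun i => (x i).transpose) (fun i => (y i).transpose) ∧
      (dtm c c' x).transpose = dtm c c' (fun i => (x i).transpose)) ∧
    (∀ (z z' : Fin t → R) (x y : MM m R), tmy c c' (fun i => z i • x i) (fun i => z' i • y i) =
      (∏ i, z i ^ c i * z' i ^ c' i) • tmy c c' x y) ∧
    (∀ a a' : ∀ i, Fin (m i) → R, tmy c c' (fun i => Matrix.diagonal (a i))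
        (fun i => Matrix.diagonal (a' i)) =
      Matrix.diagonal fun p => ∏ i, ((∏ j, a i ((p i).1 j)) * ∏ j, a' i ((p i).2 j))) ∧
    (∀ X Y : MM m R, dtm c c' (fun i => X i + Y i) = dtm c c' X + dtm c c' Y) ∧
    (∀ (r : R) (X : MM m R), dtm c c' (fun i => r • X i) = r • dtm c c' X) ∧
    (∀ X Y : MM m R, dtm c c' (fun i => X i * Y i - Y i * X i) =
      dtm c c' X * dtm c c' Y - dtm c c' Y * dtm c c' X) ∧
    (∀ x y X : MM m R, (∀ i, x i * y i = 1) → tmy c c' x y * dtm c c' X =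
      dtm c c' (fun i => x i * X i * y i) * tmy c c' x y) ∧
    (∀ h : ∀ i, Fin (m i) → R, dtm c c' (fun i => Matrix.diagonal (h i)) =
      Matrix.diagonal fun p => ∑ i, ∑ x, h i x * ((wgt p i x : ℤ) : R)) ∧
    (∀ (i : Fin t) (x y : Fin (m i)) (p p' : Tix m c c'), x ≠ y →
      dtm c c' (Pi.single i (Matrix.single x y (1 : R))) p p' ≠ 0 →
      ∀ i' x', wgt p i' x' - wgt p' i' x' = (Pi.single (M := fun i => Fin (m i) → ℤ) i
        (Pi.single x 1 - Pi.single y 1)) i' x') ∧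
    (∀ p : Tix m c c', (∀ i, ∑ x, wgt p i x = (c i : ℤ) - c' i) ∧
      ∀ i x, |wgt p i x| ≤ (c i : ℤ) + c' i) ∧
    ∀ (x y : MM m R[X]) (X : MM m R), (∀ i a b, (x i a b).coeff 0 = (1 : Matrix _ _ R) a b ∧
        (x i a b).coeff 1 = X i a b ∧ (y i a b).coeff 0 = (1 : Matrix _ _ R) a b ∧
        (y i a b).coeff 1 = -X i a b) →
      ∀ p p', (tmy c c' x y p p').coeff 0 = (1 : Matrix _ _ R) p p' ∧
        (tmy c c' x y p p').coeff 1 = dtm c c' X p p'

/-! ## B. Primitive groups which contain generic elements -/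

/-- Primitive representations: irreducible and not induced (no direct sum decomposition with at
least two summands is permuted). -/
def Prm {G K : Type} [Group G] [Field K] {n : ℕ} (r : G →* Matrix (Fin n) (Fin n) K) : Prop :=
  IsIrr r ∧ ∀ (N : ℕ) (W : Fin N → Submodule K (Fin n → K)),
    (∀ g j, ∃ j', ∀ x ∈ W j, (r g).mulVec x ∈ W j') → iSupIndep W → (⨆ j, W j) = ⊤ →
    (∀ j, W j ≠ ⊥) → N ≤ 1

/-- KGL: Lie algebras which contain the diagonal matrices. -/
def ST_KGL : Prop :=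
  ∀ (G K : Type) [Group G] [Field K] (n : ℕ) (r : G →* Matrix (Fin n) (Fin n) K), Prm r →
    ∀ H : Submodule K (Matrix (Fin n) (Fin n) K),
      (∀ X ∈ H, ∀ Y ∈ H, X * Y - Y * X ∈ H) → (∀ x, Matrix.single x x (1 : K) ∈ H) →
      (∀ X ∈ H, ∀ x y, x ≠ y → Matrix.single x y (X x y) ∈ H) →
      (∀ g, ∀ X ∈ H, r g * X * r g⁻¹ ∈ H) → H = ⊤

/-- KJJ: Lie algebras which contain the diagonal matrices preserving a form (up to factors). -/
def ST_KJJ : Prop :=
  ∀ (G K : Type) [Group G] [Field K] (n : ℕ) (r : G →* Matrix (Fin n) (Fin n) K), Prm r →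
    0 < n → (2 : K) ≠ 0 → (∀ k : ℕ, 0 < k → k ≤ n → (k : K) ≠ 0) →
    ∀ (J : Matrix (Fin n) (Fin n) K) (s : Fin n → Fin n), (∀ x, s (s x) = x) →
      (∀ x y, J x y ≠ 0 ↔ y = s x) → (J.transpose = J ∨ J.transpose = -J) →
      (∀ x y, s x = x → s y = y → x = y) →
    ∀ H : Submodule K (Matrix (Fin n) (Fin n) K),
      (∀ X ∈ H, ∃ a : K, X.transpose * J + J * X = a • J) →
      (∀ X ∈ H, ∀ Y ∈ H, X * Y - Y * X ∈ H) →
      (∀ (h : Fin n → K) (a : K), (∀ x, h x + h (s x) = a) → Matrix.diagonal h ∈ H) →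
      (∀ X ∈ H, ∀ x y, x ≠ y →
        (Matrix.of fun a b => if (a = x ∧ b = y) ∨ (a = s y ∧ b = s x) then X a b else 0) ∈ H) →
      (∀ g, ∀ X ∈ H, r g * X * r g⁻¹ ∈ H) →
      (∀ (X : Matrix (Fin n) (Fin n) K) (a : K), X.transpose * J + J * X = a • J → X ∈ H) ∧
      (J.transpose = J → n ≠ 2)

/-- the hypotheses on the forms -/
def Frm0 {G K : Type} [Group G] [CommRing K] {t : ℕ} {m : Fin t → ℕ} (J : MM m K)
    (R : ∀ i, G →* Matrix (Fin (m i)) (Fin (m i)) K) (q : Fin t → G → K) : Prop :=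
  ∀ i g, (R i g).transpose * J i * R i g = q i g • J i ∧
    (J i ≠ 0 → ∀ r : ℕ, m i = 2 * r → (R i g).det = q i g ^ r)

/-- the conclusion: stable subspaces of the spaces of matrices are stable under the Lie algebra -/
def Dns {G K : Type} [Group G] [Field K] {t : ℕ} {m : Fin t → ℕ} (J : MM m K)
    (R : ∀ i, G →* Matrix (Fin (m i)) (Fin (m i)) K) (c₁ c₁' c₂ c₂' : Fin t → ℕ) : Prop :=
  (∀ W : Submodule K (Matrix (Tix m c₂ c₂') (Tix m c₁ c₁') K),
    (∀ g, ∀ u ∈ W, tmy c₂ c₂' (fun i => R i g) (fun i => R i g⁻¹) * u *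
      tmy c₁ c₁' (fun i => R i g⁻¹) (fun i => R i g) ∈ W) →
    ∀ X : MM m K, InG J X → ∀ u ∈ W, dtm c₂ c₂' X * u - u * dtm c₁ c₁' X ∈ W) ∧
  ∀ X : MM m K, InS J X → X ∈ Submodule.span K {Z : MM m K | ∃ Y Y' : MM m K, InG J Y ∧
    InG J Y' ∧ Z = fun i => Y i * Y' i - Y' i * Y i}

/-- DND: density, if the generic element is diagonal (from TMB, KGL, KJJ). -/
def ST_DND : Prop :=
  ∀ (G K : Type) [Group G] [Field K] (t : ℕ) (m : Fin t → ℕ) (J : MM m K)
    (R : ∀ i, G →* Matrix (Fin (m i)) (Fin (m i)) K) (q : Fin t → G → K) (g₀ : G)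
    (α : ∀ i, Fin (m i) → K) (c₁ c₁' c₂ c₂' : Fin t → ℕ) (D : ℕ),
    (2 : K) ≠ 0 → (∀ i, ∀ k : ℕ, 0 < k → k ≤ m i → (k : K) ≠ 0) →
    (∀ i, 0 < m i ∧ (J i = 0 ∨ (IsUnit (J i).det ∧ ((J i).transpose = J i ∨
      (J i).transpose = -J i)))) → Frm0 J R q → (∀ i, Prm (R i)) →
    (∀ i, R i g₀ = Matrix.diagonal (α i)) →
    NoRel (fun i => J i = 0) (fun i => q i g₀) D α → 2 ≤ D →
    (∀ i, 2 * (c₁ i + c₁' i + c₂ i + c₂' i) ≤ D) → Dns J R c₁ c₁' c₂ c₂'

/-- DNE: density (from TMB, DND). -/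
def ST_DNE : Prop :=
  ∀ (G K : Type) [Group G] [Field K] (t : ℕ) (m : Fin t → ℕ) (J : MM m ℤ)
    (R : ∀ i, G →* Matrix (Fin (m i)) (Fin (m i)) K) (q : Fin t → G → K) (g₀ : G)
    (α : ∀ i, Fin (m i) → K) (c₁ c₁' c₂ c₂' : Fin t → ℕ) (D : ℕ),
    (2 : K) ≠ 0 → (∀ i, ∀ k : ℕ, 0 < k → k ≤ m i → (k : K) ≠ 0) → Jok J →
    Frm0 (jm K J) R q → (∀ i, Prm (R i)) →
    (∀ i, (R i g₀).charpoly = ∏ x, (Polynomial.X - C (α i x))) →
    NoRel (fun i => J i = 0) (fun i => q i g₀) D α → 2 ≤ D →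
    (∀ i, 2 * (c₁ i + c₁' i + c₂ i + c₂' i) ≤ D) → Dns (jm K J) R c₁ c₁' c₂ c₂'

/-- `u` is equivariant for the Lie algebra of the matrices of trace `0` preserving the forms -/
def Eqv {K : Type} [CommRing K] {t : ℕ} {m : Fin t → ℕ} (J : MM m K) {c₁ c₁' c₂ c₂' : Fin t → ℕ}
    (u : Matrix (Tix m c₂ c₂') (Tix m c₁ c₁') K) : Prop :=
  ∀ X : MM m K, InS J X → dtm c₂ c₂' X * u = u * dtm c₁ c₁' X

/-- TWH: twisted homomorphisms and stable subspaces. -/
def ST_TWH : Prop :=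
  ∀ (G K : Type) [Group G] [Field K] (t : ℕ) (m : Fin t → ℕ) (J : MM m K)
    (R : ∀ i, G →* Matrix (Fin (m i)) (Fin (m i)) K) (c₁ c₁' c₂ c₂' : Fin t → ℕ),
    (Dns J R c₁ c₁' c₂ c₂' → ∀ (ψ : G → K) (u : Matrix (Tix m c₂ c₂') (Tix m c₁ c₁') K),
      (∀ g, u * tmy c₁ c₁' (fun i => R i g) (fun i => R i g⁻¹) =
        ψ g • (tmy c₂ c₂' (fun i => R i g) (fun i => R i g⁻¹) * u)) → Eqv J u) ∧
    (Dns J R 0 0 c₂ c₂' → ∀ W : Submodule K (Tix m c₂ c₂' → K),
      (∀ g, ∀ x ∈ W, (tmy c₂ c₂' (fun i => R i g) (fun i => R i g⁻¹)).mulVec x ∈ W) →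
      ∀ X : MM m K, InS J X → ∀ x ∈ W, (dtm c₂ c₂' X).mulVec x ∈ W)

/-! ## C. Integral structures -/

/-- TRN: sets of integral matrices closed under transposition are completely reducible modulo large
primes. -/
def ST_TRN : Prop :=
  ∀ (ι : Type) [Fintype ι] (k : ℕ) (E : Fin k → Matrix ι ι ℤ),
    (∀ i, ((E i).transpose.map (Int.castRingHom ℚ)) ∈
      Submodule.span ℚ (Set.range fun j => (E j).map (Int.castRingHom ℚ))) →
    ∃ c : ℕ, ∀ (l : ℕ) (K : Type) [Field K], l.Prime → c < l → (l : K) = 0 →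
      ∀ W : Submodule K (ι → K),
        (∀ i, ∀ x ∈ W, ((E i).map (Int.castRingHom K)).mulVec x ∈ W) →
        ∃ e : Matrix ι ι K, (∀ i, e * (E i).map (Int.castRingHom K) =
          (E i).map (Int.castRingHom K) * e) ∧ (∀ x, e.mulVec x ∈ W) ∧ ∀ x ∈ W, e.mulVec x = x

/-- IKR: the kernel of an integral matrix modulo large primes. -/
def ST_IKR : Prop :=
  ∀ (ι κ : Type) [Fintype ι] [Fintype κ] (A : Matrix κ ι ℤ),
    ∃ (c r : ℕ) (u : Fin r → ι → ℤ), (∀ j, A.mulVec (u j) = 0) ∧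
      ∀ (l : ℕ) (K : Type) [Field K], l.Prime → c < l → (l : K) = 0 → ∀ v : ι → K,
        (A.map (Int.castRingHom K)).mulVec v = 0 →
        v ∈ Submodule.span K (Set.range fun j => fun x => ((u j x : ℤ) : K))

/-- INS: equivariant maps and stable subspaces modulo large primes (from TMB, TRN, IKR). -/
def ST_INS : Prop :=
  ∀ (t : ℕ) (m : Fin t → ℕ) (J : MM m ℤ), Jok J → ∀ c₁ c₁' c₂ c₂' : Fin t → ℕ,
    ∃ (c r : ℕ) (u : Fin r → Matrix (Tix m c₂ c₂') (Tix m c₁ c₁') ℤ),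
      (∀ (K : Type) [Field K] [CharZero K] (j : Fin r),
        Eqv (jm K J) ((u j).map (Int.castRingHom K))) ∧
      ∀ (l : ℕ) (K : Type) [Field K], l.Prime → c < l → (l : K) = 0 →
        (∀ v : Matrix (Tix m c₂ c₂') (Tix m c₁ c₁') K, Eqv (jm K J) v →
          v ∈ Submodule.span K (Set.range fun j => (u j).map (Int.castRingHom K))) ∧
        ∀ W : Submodule K (Tix m c₂ c₂' → K),
          (∀ X : MM m K, InS (jm K J) X → ∀ x ∈ W, (dtm c₂ c₂' X).mulVec x ∈ W) →
          ∃ e : Matrix (Tix m c₂ c₂') (Tix m c₂ c₂') K, Eqv (jm K J) e ∧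
            (∀ x, e.mulVec x ∈ W) ∧ ∀ x ∈ W, e.mulVec x = x

/-! ## D. From the Lie algebra to the group in characteristic zero -/

/-- PTH: rational curves in the group. If the polynomial matrices `x` satisfy
`xᵀ J x = d ^ 2 J`, `det x = d ^ m` and `x (0)` is scalar, then equivariant maps for the Lie algebra
commute with `x (1) / d (1)` (from TMB). -/
def ST_PTH : Prop :=
  ∀ (K : Type) [Field K] [CharZero K] (t : ℕ) (m : Fin t → ℕ) (J : MM m K)
    (c₁ c₁' c₂ c₂' : Fin t → ℕ) (u : Matrix (Tix m c₂ c₂') (Tix m c₁ c₁') K), Eqv J u →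
    ∀ (i : Fin t) (x y : Matrix (Fin (m i)) (Fin (m i)) K[X]) (d : K[X]),
      x * y = (d ^ 2) • (1 : Matrix (Fin (m i)) (Fin (m i)) K[X]) →
      x.transpose * (J i).map C * x = (d ^ 2) • (J i).map C → x.det = d ^ (m i) →
      d.eval 0 ≠ 0 → d.eval 1 ≠ 0 →
      x.map (Polynomial.eval 0) = (d.eval 0) • (1 : Matrix (Fin (m i)) (Fin (m i)) K) →
      tmy c₂ c₂' (Function.update (fun _ => 1) i (((d.eval 1)⁻¹) • x.map (Polynomial.eval 1)))
          (Function.update (fun _ => 1) i (((d.eval 1)⁻¹) • y.map (Polynomial.eval 1))) * u =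
        u * tmy c₁ c₁' (Function.update (fun _ => 1) i (((d.eval 1)⁻¹) • x.map (Polynomial.eval 1)))
          (Function.update (fun _ => 1) i (((d.eval 1)⁻¹) • y.map (Polynomial.eval 1)))

/-- GSL: generation of the special linear group by transvections. -/
def ST_GSL : Prop :=
  ∀ (K : Type) [Field K] (n : ℕ) (x : Matrix (Fin n) (Fin n) K), x.det = 1 →
    x ∈ Submonoid.closure {y : Matrix (Fin n) (Fin n) K | ∃ (i j : Fin n) (a : K), i ≠ j ∧
      y = 1 + Matrix.single i j a}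

/-- GSP: generation of the symplectic group by transvections. -/
def ST_GSP : Prop :=
  ∀ (K : Type) [Field K] [CharZero K] (n : ℕ) (J : Matrix (Fin n) (Fin n) K), IsUnit J.det →
    J.transpose = -J → ∀ x : Matrix (Fin n) (Fin n) K, x.transpose * J * x = J →
    x ∈ Submonoid.closure {y : Matrix (Fin n) (Fin n) K | ∃ (v : Fin n → K) (a : K),
      y = 1 + a • (Matrix.vecMulVec v v * J)}

/-- GSO: generation of the special orthogonal group by products of two reflections. -/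
def ST_GSO : Prop :=
  ∀ (K : Type) [Field K] [CharZero K] (n : ℕ) (J : Matrix (Fin n) (Fin n) K), IsUnit J.det →
    J.transpose = J → ∀ x : Matrix (Fin n) (Fin n) K, x.transpose * J * x = J → x.det = 1 →
    x ∈ Submonoid.closure {y : Matrix (Fin n) (Fin n) K | ∃ (v v' : Fin n → K),
      v ⬝ᵥ J.mulVec v ≠ 0 ∧ v' ⬝ᵥ J.mulVec v' ≠ 0 ∧
      y = (1 - (2 * (v ⬝ᵥ J.mulVec v)⁻¹) • (Matrix.vecMulVec v v * J)) *
        (1 - (2 * (v' ⬝ᵥ J.mulVec v')⁻¹) • (Matrix.vecMulVec v' v' * J))}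

/-- GNR: equivariance for the group (from TMB, PTH, GSL, GSP, GSO). -/
def ST_GNR : Prop :=
  ∀ (K : Type) [Field K] [CharZero K] (t : ℕ) (m : Fin t → ℕ) (J : MM m ℤ), Jok J →
    ∀ (c₁ c₁' c₂ c₂' : Fin t → ℕ) (u : Matrix (Tix m c₂ c₂') (Tix m c₁ c₁') K), Eqv (jm K J) u →
    ∀ x y : MM m K, (∀ i, x i * y i = 1 ∧ (x i).det = 1 ∧
        (x i).transpose * jm K J i * x i = jm K J i) →
      tmy c₂ c₂' x y * u = u * tmy c₁ c₁' x y

/-- the degree -/
def dg {t : ℕ} (c₁ c₁' c₂ c₂' : Fin t → ℕ) (i : Fin t) : ℤ :=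
  (c₁ i : ℤ) - c₁' i - c₂ i + c₂' i

/-- SMI: equivariance for the group of similitudes up to factors (from TMB, GNR). -/
def ST_SMI : Prop :=
  ∀ (K : Type) [Field K] [IsAlgClosed K] [CharZero K] (t : ℕ) (m : Fin t → ℕ) (J : MM m ℤ),
    Jok J → ∀ (x y : MM m K) (q : Fin t → K), (∀ i, x i * y i = 1 ∧
        (x i).transpose * jm K J i * x i = q i • jm K J i ∧
        (J i ≠ 0 → ∀ r : ℕ, m i = 2 * r → (x i).det = q i ^ r)) →
    ∃ a : Fin t → K, (∀ i, a i ≠ 0 ∧ (J i = 0 → a i ^ m i = (x i).det) ∧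
        (J i ≠ 0 → a i ^ 2 = q i)) ∧
      ∀ (c₁ c₁' c₂ c₂' : Fin t → ℕ) (u : Matrix (Tix m c₂ c₂') (Tix m c₁ c₁') K),
        Eqv (jm K J) u → u * tmy c₁ c₁' x y =
          (∏ i, a i ^ dg c₁ c₁' c₂ c₂' i) • (tmy c₂ c₂' x y * u)

/-! ## E. Valuation rings -/

/-- VAL: existence of valuation rings; their residue fields are algebraically closed. -/
def ST_VAL : Prop :=
  (∀ (L : Type) [Field L] [NumberField L] (l : ℕ) [Fact l.Prime],
    ∃ (K : Type) (_ : Field K) (_ : IsAlgClosed K) (_ : CharZero K) (A : ValuationSubring K)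
      (_ : ℤ_[l] →+* A) (_ : 𝓞 L →+* A), (l : IsLocalRing.ResidueField A) = 0) ∧
  ∀ (K : Type) [Field K] [IsAlgClosed K] (A : ValuationSubring K),
    IsAlgClosed (IsLocalRing.ResidueField A)

/-- the representation over another ring -/
def mapr {G A K : Type} [Group G] [CommRing A] [CommRing K] {n : ℕ} (f : A →+* K)
    (r : G →* Matrix (Fin n) (Fin n) A) : G →* Matrix (Fin n) (Fin n) K :=
  (f.mapMatrix (m := Fin n)).toMonoidHom.comp r

/-- FRK: ranks of the endomorphism rings, if endomorphisms can be lifted. -/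
def ST_FRK : Prop :=
  ∀ (G K : Type) [Group G] [Field K] (A : ValuationSubring K) (n : ℕ)
    (r : G →* Matrix (Fin n) (Fin n) A),
    (∀ u ∈ Hmk (mapr (IsLocalRing.residue A) r) (mapr (IsLocalRing.residue A) r),
      ∃ x : Matrix (Fin n) (Fin n) A, x.map (IsLocalRing.residue A) = u ∧
        ∀ g, x * r g = r g * x) →
    Module.finrank (IsLocalRing.ResidueField A)
        (Hmk (mapr (IsLocalRing.residue A) r) (mapr (IsLocalRing.residue A) r)) ≤
      Module.finrank K (Hmk (mapr A.subtype r) (mapr A.subtype r))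

/-- The residual representations are primitive, preserve the forms, and contain a generic
element. -/
def Frh {G K : Type} [Group G] [Field K] (A : ValuationSubring K) {t : ℕ} {m : Fin t → ℕ}
    (J : MM m ℤ) (R : ∀ i, G →* Matrix (Fin (m i)) (Fin (m i)) A) (q : Fin t → G → A) (D : ℕ) :
    Prop :=
  Frm0 (jm A J) R q ∧ (∀ i, Prm (mapr (IsLocalRing.residue A) (R i))) ∧
  ∃ (g : G) (α : ∀ i, Fin (m i) → IsLocalRing.ResidueField A),
    (∀ i, (mapr (IsLocalRing.residue A) (R i) g).charpoly = ∏ x, (Polynomial.X - C (α i x))) ∧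
    NoRel (fun i => J i = 0) (fun i => IsLocalRing.residue A (q i g)) D α

/-- the number `2 ∏ m i` -/
def mu2 {t : ℕ} (m : Fin t → ℕ) : ℕ := 2 * ∏ i, m i

/-- the exponents of the characters `det (R i)` (if `J i = 0`) and `q i` (if `J i ≠ 0`) -/
noncomputable def kap {t : ℕ} {m : Fin t → ℕ} (J : MM m ℤ) (c₁ c₁' c₂ c₂' : Fin t → ℕ)
    (i : Fin t) : ℤ :=
  (if J i = 0 then ((mu2 m / m i : ℕ) : ℤ) else ((mu2 m / 2 : ℕ) : ℤ)) * dg c₁ c₁' c₂ c₂' i

/-- the characters `det (R i)` and `q i` -/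
noncomputable def chx {G A : Type} [Group G] [CommRing A] {t : ℕ} {m : Fin t → ℕ} (J : MM m ℤ)
    (R : ∀ i, G →* Matrix (Fin (m i)) (Fin (m i)) A) (q : Fin t → G → A) (i : Fin t) (g : G) : A :=
  if J i = 0 then (R i g).det else q i g

/-- Equality of the characters `τ ^ M ∏ χ i ^ (e i)` and `τ' ^ M` on the residue field implies
equality. -/
def Sepr {G K : Type} [Group G] [Field K] (A : ValuationSubring K) {t : ℕ} {m : Fin t → ℕ}
    (J : MM m ℤ) (R : ∀ i, G →* Matrix (Fin (m i)) (Fin (m i)) A) (q : Fin t → G → A)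
    (τ τ' : G →* A) (e : Fin t → ℤ) : Prop :=
  (∀ g, IsLocalRing.residue A (τ g ^ mu2 m * ∏ i, chx J R q i g ^ (e i).toNat) =
    IsLocalRing.residue A (τ' g ^ mu2 m * ∏ i, chx J R q i g ^ (-e i).toNat)) →
  ∀ g, τ g ^ mu2 m * ∏ i, chx J R q i g ^ (e i).toNat =
    τ' g ^ mu2 m * ∏ i, chx J R q i g ^ (-e i).toNat

/-- LHM: residual homomorphisms can be lifted, residual representations are completely reducible
(from TMB, DNE, TWH, INS, SMI). -/
def ST_LHM : Prop :=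
  ∀ (t : ℕ) (m : Fin t → ℕ) (J : MM m ℤ), Jok J → ∀ c₁ c₁' c₂ c₂' : Fin t → ℕ,
    ∃ c : ℕ, ∀ (l : ℕ) (K : Type) [Field K] [IsAlgClosed K] [CharZero K] (A : ValuationSubring K),
      l.Prime → c < l → (l : IsLocalRing.ResidueField A) = 0 →
      ∀ (G : Type) [Group G] (R : ∀ i, G →* Matrix (Fin (m i)) (Fin (m i)) A)
        (q : Fin t → G → A), Frh A J R q c →
        (∀ τ τ' : G →* A, Sepr A J R q τ τ' (kap J c₁ c₁' c₂ c₂') →
          ∀ u : Matrix (Tix m c₂ c₂') (Tix m c₁ c₁') (IsLocalRing.ResidueField A),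
          (∀ g, u * (τ g • tmy c₁ c₁' (fun i => R i g) (fun i => R i g⁻¹)).map
              (IsLocalRing.residue A) =
            (τ' g • tmy c₂ c₂' (fun i => R i g) (fun i => R i g⁻¹)).map
              (IsLocalRing.residue A) * u) →
          ∃ x : Matrix (Tix m c₂ c₂') (Tix m c₁ c₁') A, x.map (IsLocalRing.residue A) = u ∧
            ∀ g, x * (τ g • tmy c₁ c₁' (fun i => R i g) (fun i => R i g⁻¹)) =
              (τ' g • tmy c₂ c₂' (fun i => R i g) (fun i => R i g⁻¹)) * x) ∧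
        ∀ τ : G →* A, SSx (fun g => (τ g • tmy c₂ c₂' (fun i => R i g) (fun i => R i g⁻¹)).map
          (IsLocalRing.residue A))

/-- ALG: direct summands (from XDS, XLF, FRK). -/
def ST_ALG : Prop :=
  ∀ (l : ℕ) [Fact l.Prime] (K : Type) [Field K] [CharZero K] (A : ValuationSubring K)
    (ϑ : ℤ_[l] →+* A), (l : IsLocalRing.ResidueField A) = 0 →
    ∀ (G Z : Type) [Group G] [Fintype Z] (I : Z → Type) [∀ z, Fintype (I z)]
      (T : ∀ z, G → Matrix (I z) (I z) A) (n : ℕ) (μ : G →* Matrix.GeneralLinearGroup (Fin n) ℤ_[l])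
      (P : ∀ z, Matrix (I z) (Fin n) A) (Q : ∀ z, Matrix (Fin n) (I z) A) (N : A), IsUnit N →
      ∑ z, Q z * P z = N • (1 : Matrix (Fin n) (Fin n) A) →
      (∀ z g, P z * (μ g : Matrix (Fin n) (Fin n) ℤ_[l]).map ϑ = T z g * P z ∧
        (μ g : Matrix (Fin n) (Fin n) ℤ_[l]).map ϑ * Q z = Q z * T z g) →
      (∀ z, SSx (fun g => (T z g).map (IsLocalRing.residue A))) →
      (∀ z z', ∀ u : Matrix (I z') (I z) (IsLocalRing.ResidueField A),
        (∀ g, u * (T z g).map (IsLocalRing.residue A) =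
          (T z' g).map (IsLocalRing.residue A) * u) →
        ∃ x : Matrix (I z') (I z) A, x.map (IsLocalRing.residue A) = u ∧
          ∀ g, x * T z g = T z' g * x) → Lft μ

end REC
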