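import Pool.Agent.Helper27.REC.StmtsT

/-!
# Reciprocity, part 15, continued: blocks and motives
Proofs: /team-store/h27_tg_blueprint.md   [helper27]
-/

set_option autoImplicit false

open scoped Classical
open NumberField Polynomial

namespace REC

open Pool.Agent.Helper13.ZL (Pl q)
open MU

/-! ## F. Blocks -/

section

variable {n m : ℕ} {L : Type} [Field L] [NumberField L] {F : Type} [Field F] [NumberField F]

/-- the representation `R` over the ring `A` is the summand -/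
def Blo.AtA (b : Blo n m L) {G : Type} [Group G] {l : ℕ} [Fact l.Prime] {A : Type} [CommRing A]
    (r : G →* Matrix.GeneralLinearGroup (Fin n) ℤ_[l]) (ϑ : ℤ_[l] →+* A) (ι : 𝓞 L →+* A)
    (R : G →* Matrix (Fin m) (Fin m) A) : Prop :=
  IsUnit (b.N : A) ∧
    ∀ g, b.P.map ι * (r g : Matrix (Fin n) (Fin n) ℤ_[l]).map ϑ = R g * b.P.map ι

end

/-- the restriction of a family -/
noncomputable def Fml.rs {F K : Type} [Field F] [NumberField F] [Field K] [NumberField K] {n : ℕ} (ρ : Fml F n)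
    (r : Gal K →* Gal F) : Fml K n := fun l _ => (ρ l).comp r

section

variable {L : Type} [Field L] [NumberField L] {F : Type} [Field F] [NumberField F] {t : ℕ}
  {n₂ m : Fin t → ℕ}

end

/-- for large `l` the family is a direct sum of characters over suitable extensions of `ℤ_l` -/
def Dga {F : Type} [Field F] [NumberField F] {n : ℕ} (B : Fml F n) : Prop :=
  ∃ c : ℕ, ∀ (l : ℕ) [Fact l.Prime], c < l → ∀ (Ω : Type) [Field Ω] [IsAlgClosed Ω] [CharZero Ω]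
    (A : ValuationSubring Ω) (ϑ : ℤ_[l] →+* A), (l : IsLocalRing.ResidueField A) = 0 →
    ∃ (C C' : Matrix (Fin n) (Fin n) A) (χ : Fin n → Gal F →* A), C * C' = 1 ∧ C' * C = 1 ∧
      ∀ g, C' * (B l g : Matrix (Fin n) (Fin n) ℤ_[l]).map ϑ * C =
        Matrix.diagonal fun x => χ x g

/-! ## G. Rows on blocks -/

/-- ATA: integral models of blocks. -/
def ST_ATA : Prop :=
  ∀ (F L : Type) [Field F] [NumberField F] [Field L] [NumberField L] (n m : ℕ) (b : Blo n m L)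
    (ρ : Fml F n), (∀ (l : ℕ) [Fact l.Prime] (Ω : Type) [Field Ω] (A : ValuationSubring Ω)
      (ϑ : ℤ_[l] →+* A) (ι : 𝓞 L →+* A) (R : Gal F →* Matrix (Fin m) (Fin m) A),
      b.AtA (ρ l) ϑ ι R →
        b.At (ρ l) (A.subtype.comp ϑ) (A.subtype.comp ι) (mapr A.subtype R) ∧
        b.At (ρ l) ((IsLocalRing.residue A).comp ϑ) ((IsLocalRing.residue A).comp ι)
          (mapr (IsLocalRing.residue A) R)) ∧
    (b.Stb ρ → ∃ c : ℕ, ∀ (l : ℕ) [Fact l.Prime], c < l → ∀ (Ω : Type) [Field Ω]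
      (A : ValuationSubring Ω) (ϑ : ℤ_[l] →+* A) (ι : 𝓞 L →+* A),
      (l : IsLocalRing.ResidueField A) = 0 →
      ∃ R : Gal F →* Matrix (Fin m) (Fin m) A, b.AtA (ρ l) ϑ ι R)

/-- BCF: restriction to extension fields (from BCT, IXB). -/
def ST_BCF : Prop :=
  ∀ (F K : Type) [Field F] [NumberField F] [Field K] [NumberField K] [Algebra F K]
    (j : AlgebraicClosure F ≃+* AlgebraicClosure K) (r : Gal K →* Gal F), IsBC F K j r →
    (∀ (l : ℕ) [Fact l.Prime] (g : Gal K), cyc l K g = cyc l F (r g)) ∧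
    ∀ (L : Type) [Field L] [NumberField L] (n m : ℕ) (b : Blo n m L) (ρ : Fml F n), b.Stb ρ →
      b.Stb (ρ.rs r) ∧ (∀ S : Finset ℕ, b.Cmp S ρ → b.Cmp S (ρ.rs r)) ∧
      (∀ (h : Fin n → ℕ) (d : Prop), b.FLc h d ρ → b.FLc h d (ρ.rs r)) ∧
      ((∀ (l : ℕ) [Fact l.Prime], Continuous (ρ l)) → b.Big ρ → b.Big (ρ.rs r)) ∧
      (b.Sir ρ → b.Sir (ρ.rs r)) ∧ (b.Si0 ρ → b.Si0 (ρ.rs r))

/-- FLD: from the eigenvalues to the determinants of subrepresentations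
(from TSR, TCH, DIG, EMF, OVP; see FDC). -/
def ST_FLD : Prop :=
  ∀ (F L : Type) [Field F] [NumberField F] [Field L] [NumberField L] (n m : ℕ) (h : Fin n → ℕ)
    (b : Blo n m L) (d : Prop) (ρ : Fml F n), b.FLc h d ρ → b.FLb h d ρ

/-- GTS: the generating summands are strongly irreducible
(from XUN, BCF, FLD, XBG, XIR, FXF, BCT). -/
def ST_GTS : Prop :=
  ∀ (F L : Type) [Field F] [NumberField F] [Field L] [NumberField L] (S : Finset ℕ),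
    (∀ p ∈ S, p.Prime) → ∀ (n w : ℕ) (h : Fin n → ℕ) (M : Mot F S n w h) (m : ℕ) (b : Blo n m L)
      (S' : Finset ℕ), b.Stb (fun l _ => M.ρ l) → b.Cmp S' (fun l _ => M.ρ l) →
      b.Gty h (fun l _ => M.ρ l) →
      b.Sir (fun l _ => M.ρ l) ∧ b.FLc h False (fun l _ => M.ρ l)

/-- INI: inertia at `l` acts trivially on systems of imprimitivity (from TSR, TCH). -/
def ST_INI : Prop :=
  ∀ (F L : Type) [Field F] [NumberField F] [Field L] [NumberField L] (n m : ℕ) (h : Fin n → ℕ)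
    (b : Blo n m L) (d : Prop) (ρ : Fml F n), b.FLc h d ρ →
    ∃ c : ℕ, ∀ (l : ℕ) [Fact l.Prime], c < l → ∀ (Ω : Type) [Field Ω] [IsAlgClosed Ω]
      (ϑ : ℤ_[l] →+* Ω) (ι : 𝓞 L →+* Ω) (R : Gal F →* Matrix (Fin m) (Fin m) Ω), (l : Ω) = 0 →
      b.At (ρ l) ϑ ι R → ∀ (N : ℕ) (W : Fin N → Submodule Ω (Fin m → Ω))
        (π : Gal F →* Equiv.Perm (Fin N)), (∀ g j, ∀ x ∈ W j, (R g).mulVec x ∈ W (π g j)) →
        iSupIndep W → (⨆ j, W j) = ⊤ → (∀ j, W j ≠ ⊥) → ∀ 𝔓 : Ideal (Zb F), Over l 𝔓 →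
        ∀ σ : Gal F, CongPow 𝔓 1 σ → π σ = 1

/-- PRM: strongly irreducible summands are primitive in almost all characteristics
(from INI and `MU.ST_HER`). -/
def ST_PRM : Prop :=
  ∀ (F L : Type) [Field F] [NumberField F] [Field L] [NumberField L] (n m : ℕ) (h : Fin n → ℕ)
    (b : Blo n m L) (d : Prop) (ρ : Fml F n), IsUn ρ → b.Stb ρ → b.FLc h d ρ → b.Sir ρ →
    ∃ c : ℕ, ∀ (l : ℕ) [Fact l.Prime], c < l → ∀ (Ω : Type) [Field Ω] [IsAlgClosed Ω]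
      (ϑ : ℤ_[l] →+* Ω) (ι : 𝓞 L →+* Ω) (R : Gal F →* Matrix (Fin m) (Fin m) Ω), (l : Ω) = 0 →
      b.At (ρ l) ϑ ι R → Prm R

/-- GNL: generic elements in almost all characteristics. -/
def ST_GNL : Prop :=
  ∀ (F L : Type) [Field F] [NumberField F] [Field L] [NumberField L] (t : ℕ) (n₂ m : Fin t → ℕ)
    (S : Finset ℕ) (J : MM m ℤ) (w : Fin t → ℕ) (b : ∀ i, Blo (n₂ i) (m i) L)
    (ρ : ∀ i, Fml F (n₂ i)), (∀ i, (b i).Cmp S (ρ i)) → Gnr S J w b ρ → ∀ D : ℕ,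
    ∃ c : ℕ, ∀ (l : ℕ) [Fact l.Prime], c < l → ∀ (Ω : Type) [Field Ω] [IsAlgClosed Ω]
      (ϑ : ℤ_[l] →+* Ω) (ι : 𝓞 L →+* Ω) (R : ∀ i, Gal F →* Matrix (Fin (m i)) (Fin (m i)) Ω),
      (l : Ω) = 0 → (∀ i, (b i).At (ρ i l) ϑ ι (R i)) →
      ∃ (g : Gal F) (α : ∀ i, Fin (m i) → Ω),
        (∀ i, (R i g).charpoly = ∏ x, (Polynomial.X - C (α i x))) ∧
        NoRel (fun i => J i = 0) (fun i => cyv ϑ g ^ w i) D α

/-- GNK: generic elements over extension fields (from BCT, CPW, IXB). -/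
def ST_GNK : Prop :=
  ∀ (F K : Type) [Field F] [NumberField F] [Field K] [NumberField K] [Algebra F K]
    (j : AlgebraicClosure F ≃+* AlgebraicClosure K) (r : Gal K →* Gal F), IsBC F K j r →
    ∀ (L : Type) [Field L] [NumberField L] (t : ℕ) (n₂ m : Fin t → ℕ) (S : Finset ℕ)
      (J : MM m ℤ) (w : Fin t → ℕ) (b : ∀ i, Blo (n₂ i) (m i) L) (ρ : ∀ i, Fml F (n₂ i)), Jok J →
      Frm J w b ρ → Gnr S J w b ρ → Gnr S J w b (fun i => (ρ i).rs r)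

/-- DGO: potentially abelian motives are sums of characters (from PBR). -/
def ST_DGO : Prop :=
  ∀ (F : Type) [Field F] [NumberField F] (S : Finset ℕ) (n : ℕ) (B : Fml F n), IsFam S B →
    (∀ (l : ℕ) [Fact l.Prime], IsSS (rat (B l))) → ∀ H : Subgroup (Gal F),
    IsOpen (H : Set (Gal F)) → (∀ (l : ℕ) [Fact l.Prime], ∀ g ∈ H, ∀ g' ∈ H,
      B l g * B l g' = B l g' * B l g) →
    ∃ U : Subgroup (Gal F), IsOpen (U : Set (Gal F)) ∧ ∀ (K : Type) [Field K] [NumberField K]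
      (r : Gal K →* Gal F), r.range ≤ U → Dga (B.rs r)

/-- XDM: density for the algebra generated by the matrix entries (from FRB; see XDN). -/
def ST_XDM : Prop :=
  ∀ (F : Type) [Field F] [NumberField F] (l : ℕ) [Fact l.Prime] (κ : Type) [Finite κ] (n : κ → ℕ)
    (r : ∀ i, Gal F →* Matrix.GeneralLinearGroup (Fin (n i)) ℤ_[l]), (∀ i, Continuous (r i)) →
    ∀ (Ω : Type) [Field Ω] [CharZero Ω] (ϑ : ℤ_[l] →+* Ω) (f : Gal F → Ω),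
      f ∈ Algebra.adjoin Ω ({f : Gal F → Ω | ∃ (i : κ) (x y : Fin (n i)), f = fun g =>
          ϑ ((r i g : Matrix (Fin (n i)) (Fin (n i)) ℤ_[l]) x y)} ∪
        {f : Gal F → Ω | f = fun g => cyv ϑ g}) →
      ∀ S : Finset ℕ, (∀ (p : ℕ) (𝔓 : Ideal (Zb F)) (k : ℕ) (σ : Gal F), p.Prime → p ∉ S →
        Over p 𝔓 → 1 ≤ k → CongPow 𝔓 (p ^ k) σ → f σ⁻¹ = 0) → ∀ g, f g = 0

/-- the character `ψ` occurs in `r` over `Ω` -/
def Occ {G Ω : Type} [Group G] [Field Ω] (A : ValuationSubring Ω) {n l : ℕ} [Fact l.Prime]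
    (r : G →* Matrix.GeneralLinearGroup (Fin n) ℤ_[l]) (ϑ : ℤ_[l] →+* A) (χ : G →* A) : Prop :=
  ∃ v : Fin n → A, v ≠ 0 ∧
    ∀ g, ((r g : Matrix (Fin n) (Fin n) ℤ_[l]).map ϑ).mulVec v = χ g • v

/-- Equality of `χ ^ M` and `χ' ^ M` up to determinants of blocks and powers of the cyclotomic
character on the residue field implies equality. -/
def Sep {F L : Type} [Field F] [NumberField F] [Field L] [NumberField L] {t : ℕ}
    {n₂ m : Fin t → ℕ} (b : ∀ i, Blo (n₂ i) (m i) L) (ρ : ∀ i, Fml F (n₂ i)) {n n' : ℕ}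
    (B : Fml F n) (B' : Fml F n') (M D : ℕ) : Prop :=
  ∃ c : ℕ, ∀ (l : ℕ) [Fact l.Prime], c < l → ∀ (Ω : Type) [Field Ω] [IsAlgClosed Ω] [CharZero Ω]
    (A : ValuationSubring Ω) (ϑ : ℤ_[l] →+* A) (ι : 𝓞 L →+* A)
    (R : ∀ i, Gal F →* Matrix (Fin (m i)) (Fin (m i)) A), (l : IsLocalRing.ResidueField A) = 0 →
    (∀ i, (b i).AtA (ρ i l) ϑ ι (R i)) → ∀ χ χ' : Gal F →* A, Occ A (B l) ϑ χ →
      Occ A (B' l) ϑ χ' → ∀ (e e' : ℕ) (κ κ' : Fin t → ℕ), e ≤ D → e' ≤ D → (∀ i, κ i ≤ D) →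
      (∀ i, κ' i ≤ D) →
      (∀ g, IsLocalRing.residue A (χ g ^ M * cyv ϑ g ^ e * ∏ i, (R i g).det ^ κ i) =
        IsLocalRing.residue A (χ' g ^ M * cyv ϑ g ^ e' * ∏ i, (R i g).det ^ κ' i)) →
      ∀ g, χ g ^ M * cyv ϑ g ^ e * ∏ i, (R i g).det ^ κ i =
        χ' g ^ M * cyv ϑ g ^ e' * ∏ i, (R i g).det ^ κ' i

/-- SP0: separation of characters, if the images at `l₀` are small (from XDM, HKL). -/
def ST_SP0 : Prop :=
  ∀ (F L : Type) [Field F] [NumberField F] [Field L] [NumberField L] (S : Finset ℕ) (t : ℕ)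
    (n₂ m : Fin t → ℕ) (b : ∀ i, Blo (n₂ i) (m i) L) (ρ : ∀ i, Fml F (n₂ i)) (n n' : ℕ)
    (B : Fml F n) (B' : Fml F n') (l₀ : ℕ) [Fact l₀.Prime],
    (∀ i, (∀ (l : ℕ) [Fact l.Prime], Continuous (ρ i l)) ∧ (b i).Stb (ρ i) ∧
      (b i).Cmp S (ρ i) ∧ ¬ l₀ ∣ (b i).N ∧ ∀ g, ∃ C : Matrix (Fin (n₂ i)) (Fin (n₂ i)) ℤ_[l₀],
        (ρ i l₀ g : Matrix (Fin (n₂ i)) (Fin (n₂ i)) ℤ_[l₀]) = 1 + (l₀ : ℤ_[l₀]) ^ 2 • C) →
    (∀ g : Gal F, ∃ a : ℤ_[l₀], ((cyc l₀ F g : ℤ_[l₀]ˣ) : ℤ_[l₀]) = 1 + (l₀ : ℤ_[l₀]) ^ 2 * a) →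
    IsFam S B → IsFam S B' → Dga B → Dga B' →
    (∀ g, ∃ C : Matrix (Fin n) (Fin n) ℤ_[l₀],
      (B l₀ g : Matrix (Fin n) (Fin n) ℤ_[l₀]) = 1 + (l₀ : ℤ_[l₀]) ^ 2 • C) →
    (∀ g, ∃ C : Matrix (Fin n') (Fin n') ℤ_[l₀],
      (B' l₀ g : Matrix (Fin n') (Fin n') ℤ_[l₀]) = 1 + (l₀ : ℤ_[l₀]) ^ 2 • C) →
    ∀ M D : ℕ, 0 < M → Sep b ρ B B' M D

/-- SP1: separation of characters (from SP0, FXF, IXB, BCF). -/
def ST_SP1 : Prop :=
  ∀ (F L : Type) [Field F] [NumberField F] [Field L] [NumberField L] (S : Finset ℕ) (t : ℕ)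
    (n₂ m : Fin t → ℕ) (b : ∀ i, Blo (n₂ i) (m i) L) (ρ : ∀ i, Fml F (n₂ i)) (n n' : ℕ)
    (B : Fml F n) (B' : Fml F n'),
    (∀ i, (∀ (l : ℕ) [Fact l.Prime], Continuous (ρ i l)) ∧ (b i).Stb (ρ i) ∧
      (b i).Cmp S (ρ i)) →
    IsFam S B → IsFam S B' → Dga B → Dga B' → ∀ M D : ℕ, 0 < M → Sep b ρ B B' M D

/-! ## H. The theorem -/

/-- MAI: the lifting theorem for families
(from VAL, ATA, PRM, GNL, SP1, LHM, ALG, TMB). -/
def ST_MAI : Prop :=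
  ∀ (F L : Type) [Field F] [NumberField F] [Field L] [NumberField L] (S : Finset ℕ) (t : ℕ)
    (n₂ m w : Fin t → ℕ) (h₂ : ∀ i, Fin (n₂ i) → ℕ) (ρ : ∀ i, Fml F (n₂ i))
    (b : ∀ i, Blo (n₂ i) (m i) L) (J : MM m ℤ) (k : ℕ) (c c' : Fin k → Fin t → ℕ)
    (n₁ : Fin k → ℕ) (B : ∀ a, Fml F (n₁ a)) (e : Fin k → ℤ) (n : ℕ) (μ : Fml F n), Jok J →
    (∀ i, IsUn (ρ i) ∧ (b i).Stb (ρ i) ∧ (b i).Cmp S (ρ i) ∧ (b i).FLc (h₂ i) False (ρ i) ∧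
      (b i).Sir (ρ i)) → Frm J w b ρ → Gnr S J w b ρ → (∀ a, IsFam S (B a) ∧ Dga (B a)) →
    Smd b ρ c c' B e μ → ∃ c₀ : ℕ, ∀ (l : ℕ) [Fact l.Prime], c₀ < l → Lft (μ l)

section

variable {F : Type} [Field F] [NumberField F] {S : Finset ℕ} {n w : ℕ} {h : Fin n → ℕ}

end

/-- TGR: the reductions are liftable
(from GTS, XUN, DGO, FXF, IXB, BCF, GNK, MAI, AVS, AVL, SSL). -/
def ST_TGR : Prop :=
  ∀ (F : Type) [Field F] [NumberField F] (S : Finset ℕ), (∀ p ∈ S, p.Prime) →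
    ∀ (n w : ℕ) (h : Fin n → ℕ) (M : Mot F S n w h), (∀ (l : ℕ) [Fact l.Prime], IsSS (rat (M.ρ l))) →
      TGn M → Reg2 M

/-- TGF: finiteness (from FINC, TGR). -/
def ST_TGF : Prop :=
  ∀ (F : Type) [Field F] [NumberField F] (S : Finset ℕ), (∀ p ∈ S, p.Prime) →
    ∀ (n w : ℕ) (h : Fin n → ℕ), ∃ N : ℕ, ∀ 𝒯 : Set (Mot F S n w h),
      (∀ M ∈ 𝒯, (∀ (l : ℕ) [Fact l.Prime], IsSS (rat (M.ρ l))) ∧ TGn M) →
      (∃ T : Finset (Mot F S n w h), (T : Set (Mot F S n w h)) ⊆ 𝒯 ∧ T.card ≤ N ∧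
          ∀ M ∈ 𝒯, ∃ M' ∈ T, M.AdelicIso M') ∧
      ((∀ M ∈ 𝒯, ∀ M' ∈ 𝒯, TateHom M M') →
        ∃ T : Finset (Mot F S n w h), (T : Set (Mot F S n w h)) ⊆ 𝒯 ∧
          ∀ M ∈ 𝒯, ∃ M' ∈ T, M.Iso M')

end REC
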