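import Pool.Agent.Helper27.REC.StmtsT2

/-!
# Reciprocity, part 15, continued: comparison with the class of motives of rank two
Proofs: /team-store/h27_tg_blueprint.md, part 3   [helper27]
-/

set_option autoImplicit false

open scoped Classical
open NumberField Polynomial

namespace REC

open Pool.Agent.Helper13.ZL (Pl q)
open MU

/-- MSS: enlarging the set of primes. -/
def ST_MSS : Prop :=
  ∀ (F : Type) [Field F] [NumberField F] (S S' : Finset ℕ), S ⊆ S' → (∀ p ∈ S', p.Prime) →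
    ∀ (n w : ℕ) (h : Fin n → ℕ) (M : Mot F S n w h), ∃ M' : Mot F S' n w h, M'.ρ = M.ρ

/-- SYT: symmetric powers are direct summands of tensor powers. -/
def ST_SYT : Prop :=
  ∀ (t : ℕ) (c : Fin t → ℕ), ∃ (N : ℕ) (U : Matrix (Tix (fun _ : Fin t => 2) c 0)
      (∀ i, Fin (c i + 1)) ℤ) (V : Matrix (∀ i, Fin (c i + 1)) (Tix (fun _ : Fin t => 2) c 0) ℤ),
    0 < N ∧ V * U = (N : ℤ) • (1 : Matrix (∀ i, Fin (c i + 1)) (∀ i, Fin (c i + 1)) ℤ) ∧
    ∀ (R : Type) [CommRing R] (x y : MM (fun _ : Fin t => 2) R),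
      U.map (Int.castRingHom R) * tenM c x = tmy c 0 x y * U.map (Int.castRingHom R) ∧
      V.map (Int.castRingHom R) * tmy c 0 x y = tenM c x * V.map (Int.castRingHom R)

/-- the identity block -/
noncomputable def idb (n : ℕ) : Blo n n ℚ where
  N := 1
  P := 1
  Q := 1
  pos := one_pos
  PQ := by rw [Matrix.mul_one, Nat.cast_one, one_smul]

/-- GNS: generic Frobenius elements for motives of rank two (from JNT, FRB). -/
def ST_GNS : Prop :=
  ∀ (F : Type) [Field F] [NumberField F] (S : Finset ℕ), (∀ p ∈ S, p.Prime) →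
    ∀ (t : ℕ) (w : Fin t → ℕ) (h : Fin t → Fin 2 → ℕ) (M : ∀ i, Mot F S 2 (w i) (h i)),
    (∀ i, SL2M (M i)) → (∀ i j, i ≠ j → Unr2 (M i) (M j)) →
    Gnr S (fun _ => 0 : MM (fun _ : Fin t => 2) ℤ) w (fun _ => idb 2) (fun i l _ => (M i).ρ l)

/-- INK: the class `TCt` is contained in the class `TGn` (from BIG, MSS, SYT, GNS). -/
def ST_INK : Prop :=
  ∀ (F : Type) [Field F] [NumberField F] (S : Finset ℕ), (∀ p ∈ S, p.Prime) →
    ∀ (n w : ℕ) (h : Fin n → ℕ) (M : Mot F S n w h), TCt M → TGn M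

end REC
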