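import Pool.Agent.Helper27.REC.XWD
import Pool.Agent.Helper52.REC.FD2

set_option autoImplicit false

/-! REC, row XFD: reducible reductions of a summand of rank two give the data. -/

open scoped Classical
open NumberField Polynomial

namespace Pool.Agent.Helper27.REC

open _root_.REC
open Pool.Agent.Helper13.ZL (Pl q)
open MU
open Pool.Agent.Helper61.REC
open Pool.Agent.Helper52.REC

theorem pair_of {n : ℕ} (J J' : Finset (Fin n)) (h1 : J ⊆ J') (h2 : J.card = 1)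
    (h3 : J'.card = 2) : ∃ s : Fin 2 → Fin n, J = {s 0} ∧ J' = {s 0, s 1} ∧ s 0 ≠ s 1 := by
  obtain ⟨x, rfl⟩ := Finset.card_eq_one.1 h2
  obtain ⟨y, z, hyz, rfl⟩ := Finset.card_eq_two.1 h3
  have hx := h1 (Finset.mem_singleton_self x)
  rw [Finset.mem_insert, Finset.mem_singleton] at hx
  rcases hx with rfl | rfl
  · exact ⟨![x, z], rfl, rfl, hyz⟩
  · exact ⟨![x, y], rfl, Finset.pair_comm _ _, fun h => hyz h.symm⟩

theorem st_XFD (hOVP : ST_OVP) (hCNV : ST_CNV) : ST_XFD := by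
  intro F L _ _ _ _ _ _ n h b ρ hUn hStb hFL hI c
  obtain ⟨c₁, hc₁⟩ := hFL
  obtain ⟨l, _, Ω, _, _, ϑ, ι, R, j, B, A, hcl, hj0, hjm, hl0, hA, hBA⟩ :=
    red_setup b ρ hI (max c c₁)
  obtain rfl : j = 1 := by omega
  obtain ⟨j₀, hj₀⟩ := hCNV F L
  obtain ⟨ι', hι'⟩ := exists_iota' (F := F) j₀ ι
  have hιl : ι' (l : 𝓞 (AlgebraicClosure F)) = 0 := by rw [map_natCast, hl0]
  have hf1 := hc₁ l (lt_of_le_of_lt (le_max_right _ _) hcl) Ω ϑ ι ι' R hl0 hA 1 B A hBA
  choose! J1 J1' hJ1 hJ1' using hf1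
  choose vt hvt hlv using plOf (F := F) ι' l hιl
  choose s hs hs' hne using fun τ => pair_of (J1 (vt τ) τ) (J1' (vt τ) τ)
    (hJ1 (vt τ) (hlv τ) τ).1 (hJ1 (vt τ) (hlv τ) τ).2.1 (hJ1 (vt τ) (hlv τ) τ).2.2.1
  have hR : IsSub R 1 R := IsSub.whole R
  set δ : Fin 2 → Gal F →* Ωˣ := ![subDet hBA, subDet hR / subDet hBA] with hδ
  have hδ0 : ∀ g, ((δ 0 g : Ωˣ) : Ω) = (A g).det := fun g => rfl
  have hδ1 : ∀ g, ((δ 1 g : Ωˣ) : Ω) = (R g).det / (A g).det := fun g => by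
    have : δ 1 g = subDet hR g / subDet hBA g := rfl
    rw [this, Units.val_div_eq_div_val, subDet_coe, subDet_coe]
  have hcp : ∀ g, (R g).charpoly = ∏ i, (Polynomial.X - C ((δ i g : Ωˣ) : Ω)) := by
    intro g
    obtain ⟨C₁, hC₁⟩ := hBA.1
    rw [Fin.prod_univ_two, hδ0, hδ1]
    exact line_charpoly _ B (A g) C₁ hC₁ (hBA.2 g) (subDet_ne hBA g)
  refine ⟨l, inferInstance, lt_of_le_of_lt (le_max_left _ _) hcl, Ω, inferInstance, ϑ, ι, R, δ,
    fun i τ => s (j₀.comp τ) i, hl0, hA, ?_, ?_, ?_, ?_, hcp⟩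
  · intro τ heq
    have h1 := (hJ1 (vt (j₀.comp τ)) (hlv (j₀.comp τ)) (j₀.comp τ)).2.2.2 trivial
    rw [hs' (j₀.comp τ)] at h1
    exact hne (j₀.comp τ) (h1 _ (Finset.mem_insert_self _ _) _
      (Finset.mem_insert_of_mem (Finset.mem_singleton_self _)) heq)
  · intro i
    refine open_of_res (hUn.1 l) _ ?_
    intro g hg
    have hg' := at_one hl0 hA g hg
    rw [MonoidHom.mem_ker]
    have e1 := subDet_of_one hBA g hg'
    have e2 := subDet_of_one hR g hg'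
    fin_cases i
    · exact e1
    · show subDet hR g / subDet hBA g = 1
      rw [e1, e2, div_one]
  · intro i v hv 𝔓 h𝔓 σ hσ
    obtain ⟨p, f, hp, -, -, hO, hpv⟩ := (hOVP F).2.2.2.1 v 𝔓 h𝔓
    have hpl : p ≠ l := by
      rintro rfl
      exact hv hpv
    have h2 := at_unip hA σ (hUn.2 l p hp hpl 𝔓 hO σ hσ)
    obtain ⟨C', hC'⟩ := hBA.1
    have e1 : subDet hBA σ = 1 := by
      apply Units.ext
      rw [Units.val_one, subDet_coe]
      exact unip_det _ (unip_sub hC' (hBA.2 σ) h2)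
    have e2 : subDet hR σ = 1 := by
      apply Units.ext
      rw [Units.val_one, subDet_coe]
      exact unip_det _ h2
    fin_cases i
    · exact e1
    · show subDet hR σ / subDet hBA σ = 1
      rw [e1, e2, div_one]
  · intro i v hv π hπ hπ2 𝔓 h𝔓 σ hσ u hu hT
    obtain ⟨a1, a2⟩ := hJ1' v hv π hπ hπ2 𝔓 h𝔓 σ hσ u hu hT
    have hvv : ∀ τ, RingHom.ker (ι'.comp (RingOfIntegers.mapRingHom τ)) = v.asIdeal →
        vt τ = v := by
      intro τ hτ
      apply IsDedekindDomain.HeightOneSpectrum.ext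
      rw [← hvt τ, hτ]
    set t : Fin 2 → Ω := fun i => tmp ι' v (fun τ => h (s τ i)) u with ht
    have b1 : tmp ι' v (fun τ => ∑ j ∈ J1 v τ, h j) u = t 0 := by
      refine tmp_congr ι' v _ _ u fun τ hτ => ?_
      rw [← hvv τ hτ, hs τ, Finset.sum_singleton]
    have b2 : tmp ι' v (fun τ => ∑ j ∈ J1' v τ, h j) u = t 0 * t 1 := by
      rw [ht, ← tmp_add]
      refine tmp_congr ι' v _ _ u fun τ hτ => ?_
      rw [← hvv τ hτ, hs' τ, Finset.sum_pair (hne τ)]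
    rw [b1] at a1
    rw [b2] at a2
    have n1 := subDet_ne hBA σ
    have key : ∀ i : Fin 2, ((δ i σ : Ωˣ) : Ω) * t i = 1 := by
      intro i
      fin_cases i
      · show ((δ 0 σ : Ωˣ) : Ω) * t 0 = 1
        rw [hδ0]
        exact a1
      · show ((δ 1 σ : Ωˣ) : Ω) * t 1 = 1
        rw [hδ1]
        have : (R σ).det / (A σ).det * t 1 =
            ((R σ).det * (t 0 * t 1)) / ((A σ).det * t 0) := by
          have ht0 : t 0 ≠ 0 := right_ne_zero_of_mul_eq_one a1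
          field_simp
        rw [this, a2, a1, div_one]
    rw [← tmp_eq j₀ hj₀ ι ι' hι' v (fun τ' => h (s τ' i)) u]
    exact key i

end Pool.Agent.Helper27.REC

namespace REC

theorem st_XFD (hOVP : ST_OVP) (hCNV : ST_CNV) : ST_XFD :=
  Pool.Agent.Helper27.REC.st_XFD hOVP hCNV

end REC
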