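import Pool.Agent.Helper27.REC.XRL
import Pool.Agent.Helper34.REC.NF2

set_option autoImplicit false

/-! REC, row XNF: for a summand of rank two the data occur for finitely many `l` only. -/

open scoped Classical
open NumberField Polynomial

namespace Pool.Agent.Helper27.REC

open _root_.REC
open Pool.Agent.Helper13.ZL (Pl q)
open MU
open Pool.Agent.Helper34.REC (nf_coeff nf_pow nf_quad nf_roots)

/-- the two characters agree up to a bounded power -/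
theorem xnf_key {F L : Type} [Field F] [NumberField F] [Field L] [NumberField L] {n : ℕ}
    (b : Blo n 2 L) (S : Finset ℕ) (ρ : Fml F n) (hcont : ∀ (l : ℕ) [Fact l.Prime],
      Continuous (ρ l)) (hCmp : b.Cmp S ρ) (hTRP : ST_XTR) (hCL2 : ST_CL2)
    (l₀ : ℕ) [Fact l₀.Prime] (ι₀ : 𝓞 L →+* ℚ_[l₀]) (R₀ : Gal F →* Matrix (Fin 2) (Fin 2) ℚ_[l₀])
    (hA₀ : b.At (ρ l₀) (algebraMap ℤ_[l₀] ℚ_[l₀]) ι₀ R₀) (H' : Subgroup (Gal F))
    (hH'n : H'.Normal) (hH'o : IsOpen (H' : Set (Gal F))) (hirr : IsIrr R₀)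
    (B₀ : Matrix (Fin 2) (Fin 1) ℚ_[l₀]) (A₀ : H' → Matrix (Fin 1) (Fin 1) ℚ_[l₀])
    (hBA' : IsSub (R₀.comp H'.subtype) B₀ A₀) :
    ∀ (l : ℕ) [Fact l.Prime] (Ω : Type) [Field Ω] (ϑ : ℤ_[l] →+* Ω) (ι : 𝓞 L →+* Ω)
      (R : Gal F →* Matrix (Fin 2) (Fin 2) Ω) (a₁ a₂ : Gal F →* Ωˣ), (l : Ω) = 0 →
      b.At (ρ l) ϑ ι R →
      (∀ g, (R g).trace = a₁ g + a₂ g) → (∀ g, (R g).det = a₁ g * a₂ g) →
      ∀ g, (a₁ g) ^ (2 * H'.index) = (a₂ g) ^ (2 * H'.index) := by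
  rcases hCL2 (Gal F) ℚ_[l₀] R₀ H' hH'n hirr B₀ _ hBA' with
    ⟨G', hHG, hG'ne, htr⟩ | hsc
  · have hG'o : IsOpen (G' : Set (Gal F)) := Subgroup.isOpen_mono hHG hH'o
    have hG'c : IsOpen ((G' : Set (Gal F))ᶜ) :=
      (Subgroup.isClosed_of_isOpen G' hG'o).isOpen_compl
    intro l _ Ω _ ϑ ι R a₁ a₂ hl0 hA htra hdet
    have h1 := hTRP F L n 2 b S ρ hcont hCmp _ hG'c (MvPolynomial.X 1) l₀ ℚ_[l₀] _ ι₀ R₀ hA₀ (by
      intro σ hσ
      rw [MvPolynomial.aeval_X, (nf_coeff _).1, htr σ hσ, neg_zero]) l Ω ϑ ι R hl0 hA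
    have h4 : ∀ σ, σ ∉ G' → (a₁ σ) ^ 2 = (a₂ σ) ^ 2 := by
      intro σ hσ
      have h5 := h1 σ hσ
      rw [MvPolynomial.aeval_X, (nf_coeff _).1, neg_eq_zero, htra σ] at h5
      apply Units.ext
      push_cast
      linear_combination ((a₁ σ : Ω) - (a₂ σ : Ω)) * h5
    obtain ⟨t, ht⟩ : ∃ t, t ∉ G' := by
      by_contra hc
      push Not at hc
      exact hG'ne (by rw [eq_top_iff]; exact fun x _ => hc x)
    intro g
    rw [pow_mul, pow_mul]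
    congr 1
    by_cases hg : g ∈ G'
    · have h5 := h4 (g * t) (fun h => ht ((Subgroup.mul_mem_cancel_left G' hg).1 h))
      rw [map_mul, map_mul, mul_pow, mul_pow, h4 t ht] at h5
      exact mul_right_cancel h5
    · exact h4 g hg
  · intro l _ Ω _ ϑ ι R a₁ a₂ hl0 hA htra hdet
    have h1 := hTRP F L n 2 b S ρ hcont hCmp _ hH'o
      (MvPolynomial.X 1 ^ 2 - 4 * MvPolynomial.X 0) l₀ ℚ_[l₀] _ ι₀ R₀ hA₀ (by
      intro σ hσ
      have h2 := hsc σ hσ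
      rw [map_sub, map_mul, map_pow, MvPolynomial.aeval_X, MvPolynomial.aeval_X,
        (nf_coeff _).1, (nf_coeff _).2]
      have h5 : (MvPolynomial.aeval fun i => (R₀ σ).charpoly.coeff i)
          (4 : MvPolynomial ℕ ℤ) = 4 := map_ofNat _ 4
      rw [h5]
      linear_combination h2) l Ω ϑ ι R hl0 hA
    have h4 : ∀ σ ∈ H', a₁ σ = a₂ σ := by
      intro σ hσ
      have h5 := h1 σ hσ
      have h6 : (MvPolynomial.aeval fun i => (R σ).charpoly.coeff i)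
          (4 : MvPolynomial ℕ ℤ) = 4 := map_ofNat _ 4
      rw [map_sub, map_mul, map_pow, MvPolynomial.aeval_X, MvPolynomial.aeval_X,
        (nf_coeff _).1, (nf_coeff _).2, h6, hdet, htra] at h5
      have h8 : ((a₁ σ : Ω) - (a₂ σ : Ω)) ^ 2 = 0 := by linear_combination h5
      exact Units.ext (sub_eq_zero.1 (pow_eq_zero_iff two_ne_zero |>.1 h8))
    intro g
    apply nf_pow
    rw [← map_pow, ← map_pow]
    exact h4 _ (H'.pow_index_mem g)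

theorem st_XNF (hXRL : ST_XRL) (hXLN : ST_XLN) (hXTR : ST_XTR) (hCL2 : ST_CL2)
    (hPIN : ST_PIN) (hOVP : ST_OVP) : ST_XNF := by
  intro F L _ _ _ _ _ hFL n h b S ρ hcont hStb hCmp hIr
  by_contra hcon
  push Not at hcon
  have hcon' : ∀ c : ℕ, ∃ (l : ℕ) (_ : Fact l.Prime), c < l ∧ b.Dat h ρ l := by
    intro c
    obtain ⟨l, hl, hcl, hD⟩ := hcon c
    exact ⟨l, hl, hcl, hD⟩
  obtain ⟨e, he⟩ := hXRL F L n h b ρ hcon'
  obtain ⟨l₀, hl₀, ι₀, R₀, H, B₀, A₀, hA₀, hH, hBA₀⟩ := hXLN F L n b S ρ hcont hStb hCmp e he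
  obtain ⟨hdif, S', hrel⟩ := he
  -- the normal core
  have hHf : H.FiniteIndex := by
    have := Subgroup.quotient_finite_of_isOpen H hH
    exact Subgroup.finiteIndex_of_finite_quotient
  set H' := H.normalCore with hH'
  have hH'o : IsOpen (H' : Set (Gal F)) :=
    Subgroup.isOpen_of_isClosed_of_finiteIndex _
      (H.normalCore_isClosed (Subgroup.isClosed_of_isOpen H hH))
  have hH'n : H'.Normal := H.normalCore_normal
  have hBA' : IsSub (R₀.comp H'.subtype) B₀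
      (fun g => A₀ ⟨g, H.normalCore_le g.2⟩) :=
    ⟨hBA₀.1, fun g => hBA₀.2 ⟨g, H.normalCore_le g.2⟩⟩
  have hd : 0 < H'.index := Nat.pos_of_ne_zero Subgroup.FiniteIndex.index_ne_zero
  have key := xnf_key b S ρ hcont hCmp hXTR hCL2 l₀ ι₀ R₀ hA₀ H' hH'n hH'o
    (hIr l₀ ℚ_[l₀] _ ι₀ R₀ hA₀) B₀ _ hBA'
  -- the exponents differ
  obtain ⟨τ0⟩ := id hFL
  have hee : (fun τ => e 0 τ * (2 * H'.index)) ≠ fun τ => e 1 τ * (2 * H'.index) := by
    intro h1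
    have h2 := congrFun h1 τ0
    have h3 : e 0 τ0 = e 1 τ0 := Nat.eq_of_mul_eq_mul_right (by omega) h2
    exact hdif τ0 h3
  obtain ⟨m, hm, hgen⟩ := lin_gen F
  obtain ⟨p, v, hp, hcp, hpv, hprod⟩ := hPIN F L _ _ hee m ((S ∪ S').sup id) hm
  have hpSS : p ∉ S ∪ S' := by
    intro h1
    have h2 : p ≤ (S ∪ S').sup id := Finset.le_sup (f := id) h1
    omega
  have hpS : p ∉ S := fun h1 => hpSS (Finset.mem_union_left _ h1)
  have hpS' : p ∉ S' := fun h1 => hpSS (Finset.mem_union_right _ h1)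
  obtain ⟨x, hx1, hx2⟩ := hgen v
  obtain ⟨hO1, hO2, -, hO4, -, -, -⟩ := hOVP F
  obtain ⟨𝔓, h𝔓⟩ := hO1 v
  obtain ⟨σ₀, hσ₀⟩ := hO2 v 𝔓 h𝔓
  obtain ⟨p', f, hp', hf, hqv, hov', hp'v⟩ := hO4 v 𝔓 h𝔓
  have hpp' : p' = p := by
    by_contra hne'
    have h1 : Nat.Coprime p' p := (Nat.coprime_primes hp' hp).2 hne'
    have h2 : IsCoprime (p' : 𝓞 F) (p : 𝓞 F) := by
      have h3 := (Nat.isCoprime_iff_coprime.mpr h1).map (Int.castRingHom (𝓞 F))
      simpa using h3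
    obtain ⟨a, b, hab⟩ := h2
    apply v.isPrime.ne_top
    rw [Ideal.eq_top_iff_one, ← hab]
    exact Ideal.add_mem _ (Ideal.mul_mem_left _ _ hp'v) (Ideal.mul_mem_left _ _ hpv)
  rw [hpp'] at hqv hov'
  -- the Frobenius element
  obtain ⟨Φ, hΦ⟩ := hCmp p hp hpS 𝔓 hov' (f * m) (σ₀ ^ m) (Nat.mul_pos hf hm) (by
      have h1 := congPow_pow 𝔓 (q v) σ₀ hσ₀ m
      rw [hqv, ← pow_mul] at h1
      exact h1)
  have hPL := hrel v p 𝔓 1 m σ₀ x Φ hp hpS' hpv h𝔓 one_pos hm (by rw [pow_one]; exact hσ₀)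
    hx1 hx2 (by
    intro l' _ hl' Ω _ ϑ ι R hA
    exact hΦ l' hl' Ω ϑ ι R hA)
  rw [Fin.prod_univ_two] at hPL
  set β₀ : 𝓞 L := ∏ τ : F →+* L, RingOfIntegers.mapRingHom τ x ^ (e 0 τ * 1) with hβ₀
  set β₁ : 𝓞 L := ∏ τ : F →+* L, RingOfIntegers.mapRingHom τ x ^ (e 1 τ * 1) with hβ₁
  have h6 : β₀ ^ (2 * H'.index) - β₁ ^ (2 * H'.index) = 0 := by
    refine zero_of_inf _ fun c => ?_
    obtain ⟨l, hl, hcl, Ω, _, ϑ, ι, R, δ, a, hl0, hA, -, -, -, -, hch⟩ := hcon' (max p c)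
    have hlp : l ≠ p := ((le_max_left _ _).trans_lt hcl).ne'
    refine ⟨l, hl.out, (le_max_right _ _).trans_lt hcl, Ω, inferInstance, ι, hl0, ?_⟩
    have hch2 : ∀ g, (R g).trace = δ 0 g + δ 1 g ∧ (R g).det = δ 0 g * δ 1 g := by
      intro g
      have h1 := hch g
      rw [Fin.prod_univ_two] at h1
      have h2 := congrArg (fun P : Polynomial Ω => P.coeff 1) h1
      have h3 := congrArg (fun P : Polynomial Ω => P.coeff 0) h1
      change (R g).charpoly.coeff 1 = ((Polynomial.X - C ((δ 0 g : Ωˣ) : Ω)) *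
        (Polynomial.X - C ((δ 1 g : Ωˣ) : Ω))).coeff 1 at h2
      change (R g).charpoly.coeff 0 = ((Polynomial.X - C ((δ 0 g : Ωˣ) : Ω)) *
        (Polynomial.X - C ((δ 1 g : Ωˣ) : Ω))).coeff 0 at h3
      rw [(nf_coeff _).1, (nf_quad _ _).1, neg_inj] at h2
      rw [(nf_coeff _).2, (nf_quad _ _).2] at h3
      exact ⟨h2, h3⟩
    have hpow := key l Ω ϑ ι R (δ 0) (δ 1) hl0 hA (fun g => (hch2 g).1) (fun g => (hch2 g).2)
      ((σ₀ ^ m)⁻¹)
    have hch0 := hch ((σ₀ ^ m)⁻¹)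
    rw [Fin.prod_univ_two, hΦ l hlp Ω ϑ ι R hA, hPL, Polynomial.map_mul, Polynomial.map_sub,
      Polynomial.map_sub, Polynomial.map_X, Polynomial.map_C, Polynomial.map_C] at hch0
    have h5 := nf_roots (N := 2 * H'.index) hch0 (by
      have h6 := congrArg Units.val hpow
      rw [Units.val_pow_eq_pow_val, Units.val_pow_eq_pow_val] at h6
      exact h6)
    rw [map_sub, map_pow, map_pow, h5, sub_self]
  apply hprod x hx2
  have h7 := sub_eq_zero.1 h6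
  rw [hβ₀, hβ₁, ← Finset.prod_pow, ← Finset.prod_pow] at h7
  have h8 : ∀ i : Fin 2, (∏ τ : F →+* L, (RingOfIntegers.mapRingHom τ x ^ (e i τ * 1)) ^
      (2 * H'.index)) = ∏ τ : F →+* L, RingOfIntegers.mapRingHom τ x ^ (e i τ * (2 * H'.index)) :=
    fun i => Finset.prod_congr rfl fun τ _ => by rw [mul_one, ← pow_mul]
  rw [h8, h8] at h7
  exact h7

end Pool.Agent.Helper27.REC

namespace REC

theorem st_XNF (hXRL : ST_XRL) (hXLN : ST_XLN) (hXTR : ST_XTR) (hCL2 : ST_CL2)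
    (hPIN : ST_PIN) (hOVP : ST_OVP) : ST_XNF :=
  Pool.Agent.Helper27.REC.st_XNF hXRL hXLN hXTR hCL2 hPIN hOVP

end REC
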