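import Pool.Agent.Helper57.REC.StmtsX
import Pool.Agent.Helper72.REC.REL3

set_option autoImplicit false

/-! REC, row XRL: the exact relation of a summand of rank two from the data at infinitely
many `l`. -/

open scoped Classical
open NumberField Polynomial

namespace Pool.Agent.Helper27.REC

open _root_.REC
open Pool.Agent.Helper13.ZL (Pl q)
open MU
open Pool.Agent.Helper18.REC (ev_pow bound_of_mem)
open Pool.Agent.Helper72.REC.R3 (exists_Bl pl_eq_of_pow_le exists_unif)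

/-- the value of a character at the Frobenius elements -/
theorem char_formula (hLART : ST_LART) (hEV : ST_EV) (hFRV : ST_FRV) {F L : Type} [Field F]
    [NumberField F] [Field L] [NumberField L] [IsGalois ℚ L] [Nonempty (F →+* L)] (l : ℕ)
    [Fact l.Prime] {Ω : Type} [Field Ω] (ι : 𝓞 L →+* Ω) (hl0 : (l : Ω) = 0) (δ : Gal F →* Ωˣ)
    (e : (F →+* L) → ℕ) (hop : IsOpen (δ.ker : Set (Gal F)))
    (hun : ∀ v : Pl F, (l : 𝓞 F) ∉ v.asIdeal → Unr δ v)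
    (hta : ∀ v : Pl F, (l : 𝓞 F) ∈ v.asIdeal → ∀ (π : 𝓞 F), π ∈ v.asIdeal → π ∉ v.asIdeal ^ 2 →
      ∀ 𝔓 : Ideal (Zb F), OverP v 𝔓 → ∀ σ : Gal F, CongPow 𝔓 1 σ → ∀ u : 𝓞 F, u ∉ v.asIdeal →
        Tm v 𝔓 π σ u → ((δ σ : Ωˣ) : Ω) * ∏ τ : F →+* L,
          (if RingHom.ker (ι.comp (RingOfIntegers.mapRingHom τ)) = v.asIdeal then
            ι (RingOfIntegers.mapRingHom τ u) ^ e τ else 1) = 1)
    (v : Pl F) (p : ℕ) (𝔓 : Ideal (Zb F)) (j k : ℕ) (σ : Gal F) (x : 𝓞 F) (hp : p.Prime)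
    (hpv : (p : 𝓞 F) ∈ v.asIdeal) (h𝔓 : OverP v 𝔓) (hlp : l ≠ p) (hσ : CongPow 𝔓 (q v ^ j) σ)
    (hx : TotPos (x : F)) (hxv : Ideal.span {x} = v.asIdeal ^ k) :
    ((δ ((σ ^ k)⁻¹) : Ωˣ) : Ω) = ι (∏ τ : F →+* L, RingOfIntegers.mapRingHom τ x ^ (e τ * j)) := by
  have hlP : l.Prime := Fact.out
  have hιl : ι (l : 𝓞 L) = 0 := by rw [map_natCast, hl0]
  obtain ⟨Bl, hBl⟩ := exists_Bl F l
  choose π hπ using fun v : Pl F => exists_unif v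
  -- the Frobenius function
  have hφ : ∃ φ : Pl F → Ωˣ, IsPhi δ Bl φ := by
    have h1 : ∀ u : Pl F, ∃ a : Ωˣ, (u ∈ Bl → a = 1) ∧ (u ∉ Bl → IsFr δ u a) := by
      intro u
      by_cases hu : u ∈ Bl
      · exact ⟨1, fun _ => rfl, fun h => absurd hu h⟩
      · obtain ⟨a, ha⟩ := (hFRV F Ωˣ δ u).1 (hun u (fun h => hu ((hBl u).mpr h)))
        exact ⟨a, fun h => absurd h hu, fun _ => ha⟩
    choose φ hφ using h1
    exact ⟨φ, fun u hu => (hφ u).1 hu, fun u hu => (hφ u).2 hu⟩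
  obtain ⟨φ, hφ⟩ := hφ
  -- places
  have hcop : ∀ u : Pl F, (p : 𝓞 F) ∈ u.asIdeal → (l : 𝓞 F) ∈ u.asIdeal → False := by
    intro u h1 h2
    have h3 : IsCoprime (l : ℤ) (p : ℤ) := by
      rw [Nat.isCoprime_iff_coprime]
      exact (Nat.coprime_primes hlP hp).mpr hlp
    obtain ⟨a, b, hab⟩ := h3
    apply u.isPrime.ne_top
    rw [Ideal.eq_top_iff_one]
    have h4 : (a : 𝓞 F) * (l : 𝓞 F) + (b : 𝓞 F) * (p : 𝓞 F) = 1 := by
      exact_mod_cast congrArg (Int.cast : ℤ → 𝓞 F) hab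
    rw [← h4]
    exact add_mem (Ideal.mul_mem_left _ _ h2) (Ideal.mul_mem_left _ _ h1)
  have hvB : v ∉ Bl := fun h1 => hcop v hpv ((hBl v).mp h1)
  have hxB : ∀ u ∈ Bl, x ∉ u.asIdeal := by
    intro u hu hxu
    have h1 : v.asIdeal ^ k ≤ u.asIdeal := by
      rw [← hxv, Ideal.span_singleton_le_iff_mem]; exact hxu
    have h2 : v = u := pl_eq_of_pow_le v u k h1
    exact hvB (h2 ▸ hu)
  have hx0 : x ≠ 0 := by
    rintro rfl
    have h1 : (⊥ : Ideal (𝓞 F)) = v.asIdeal ^ k := by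
      rw [← hxv, Ideal.span_singleton_eq_bot.mpr rfl]
    exact (pow_ne_zero k v.ne_bot) h1.symm
  have h1 := hLART F L l Ω ι hιl δ Bl φ π e hBl hop hφ
    (fun u hu => ⟨hπ u, fun 𝔔 h𝔔 σ' hσ' y hy hT =>
      hta u ((hBl u).mp hu) (π u) (hπ u).1 (hπ u).2 𝔔 h𝔔 σ' hσ' y hy hT⟩) x hx0 hx hxB
  have hev : ev φ (Ideal.span {x}) = φ v ^ k := by rw [hxv, ev_pow hEV]
  have hεσ : δ σ = φ v ^ j := hφ.2 v hvB 𝔓 h𝔓 j σ hσ
  have hεσm : δ (σ ^ k) = (φ v ^ k) ^ j := by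
    rw [map_pow, hεσ, ← pow_mul, ← pow_mul, mul_comm]
  rw [hev] at h1
  have h3 : ι (∏ τ : F →+* L, RingOfIntegers.mapRingHom τ x ^ (e τ * j)) =
      (∏ τ : F →+* L, ι (RingOfIntegers.mapRingHom τ x) ^ e τ) ^ j := by
    rw [map_prod, ← Finset.prod_pow]
    exact Finset.prod_congr rfl fun τ _ => by rw [map_pow, pow_mul]
  rw [h3, map_inv, hεσm, ← inv_pow, Units.val_pow_eq_pow_val]
  congr 1
  exact Units.inv_eq_of_mul_eq_one_right h1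

/-- one of finitely many patterns occurs infinitely often -/
theorem pigeon {α : Type} [Finite α] {P : α → ℕ → Prop}
    (h : ∀ c : ℕ, ∃ l : ℕ, c < l ∧ ∃ a, P a l) : ∃ a, ∀ c : ℕ, ∃ l : ℕ, c < l ∧ P a l := by
  by_contra hcon
  push Not at hcon
  choose c hc using hcon
  have := Fintype.ofFinite α
  obtain ⟨l, hl, a, ha⟩ := h (∑ a : α, c a)
  have h2 : c a ≤ ∑ a : α, c a :=
    Finset.single_le_sum (f := c) (fun _ _ => Nat.zero_le _) (Finset.mem_univ a)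
  exact hc a l (by omega) ha

/-- an algebraic integer which vanishes modulo infinitely many `l` -/
theorem zero_of_inf {L : Type} [Field L] [NumberField L] (z : 𝓞 L)
    (h : ∀ c : ℕ, ∃ l : ℕ, l.Prime ∧ c < l ∧ ∃ (Ω : Type) (_ : Field Ω) (ι : 𝓞 L →+* Ω),
      (l : Ω) = 0 ∧ ι z = 0) : z = 0 := by
  by_contra hne
  obtain ⟨c, hc⟩ := bound_of_mem L z hne
  obtain ⟨l, hl, hcl, Ω, _, ι, hl0, hz⟩ := h c
  refine hc l hl hcl (RingHom.ker ι) (RingHom.ker_isPrime ι) ?_ hz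
  rw [RingHom.mem_ker, map_natCast, hl0]

theorem st_XRL (hLART : ST_LART) (hEV : ST_EV) (hFRV : ST_FRV) : ST_XRL := by
  intro F L _ _ _ _ _ _ n h b ρ hinf
  -- one pattern for infinitely many `l`
  let P : (Fin 2 → (F →+* L) → Fin n) → ℕ → Prop := fun a l =>
    ∃ _ : Fact l.Prime, ∃ (Ω : Type) (_ : Field Ω) (ϑ : ℤ_[l] →+* Ω) (ι : 𝓞 L →+* Ω)
      (R : Gal F →* Matrix (Fin 2) (Fin 2) Ω), (l : Ω) = 0 ∧ b.At (ρ l) ϑ ι R ∧
      (∀ τ, h (a 0 τ) ≠ h (a 1 τ)) ∧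
      ∀ (v : Pl F) (p : ℕ) (𝔓 : Ideal (Zb F)) (j k : ℕ) (σ : Gal F) (x : 𝓞 F), p.Prime →
        (p : 𝓞 F) ∈ v.asIdeal → OverP v 𝔓 → l ≠ p → CongPow 𝔓 (q v ^ j) σ → TotPos (x : F) →
        Ideal.span {x} = v.asIdeal ^ k → (R ((σ ^ k)⁻¹)).charpoly =
          (∏ s, (Polynomial.X -
            C (∏ τ : F →+* L, RingOfIntegers.mapRingHom τ x ^ (h (a s τ) * j)))).map ι
  have hP : ∀ c : ℕ, ∃ l : ℕ, c < l ∧ ∃ a, P a l := by
    intro c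
    obtain ⟨l, hl, hcl, Ω, _, ϑ, ι, R, δ, a, hl0, hA, hne, hop, hun, hta, hch⟩ := hinf c
    refine ⟨l, hcl, a, hl, Ω, inferInstance, ϑ, ι, R, hl0, hA, hne, ?_⟩
    intro v p 𝔓 j k σ x hp hpv h𝔓 hlp hσ hx hxv
    rw [hch, Polynomial.map_prod]
    refine Finset.prod_congr rfl fun s _ => ?_
    rw [Polynomial.map_sub, Polynomial.map_X, Polynomial.map_C,
      char_formula hLART hEV hFRV l ι hl0 (δ s) (fun τ => h (a s τ)) (hop s) (hun s) (hta s)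
        v p 𝔓 j k σ x hp hpv h𝔓 hlp hσ hx hxv]
  obtain ⟨a, ha⟩ := pigeon hP
  refine ⟨fun s τ => h (a s τ), ?_, ∅, ?_⟩
  · obtain ⟨l, -, _, Ω, _, ϑ, ι, R, -, -, hne, -⟩ := ha 0
    exact hne
  · intro v p 𝔓 j k σ x Φ hp _ hpv h𝔓 hj hk hσ hx hxv hΦ
    rw [← sub_eq_zero]
    ext1 i
    rw [Polynomial.coeff_zero]
    refine zero_of_inf _ fun c => ?_
    obtain ⟨l, hcl, hl, Ω, _, ϑ, ι, R, hl0, hA, -, hrel⟩ := ha (c + p)
    have hlp : l ≠ p := by omega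
    refine ⟨l, hl.out, by omega, Ω, inferInstance, ι, hl0, ?_⟩
    rw [← Polynomial.coeff_map, Polynomial.map_sub, ← hΦ l hlp Ω ϑ ι R hA,
      hrel v p 𝔓 j k σ x hp hpv h𝔓 hlp hσ hx hxv, sub_self, Polynomial.coeff_zero]

end Pool.Agent.Helper27.REC

namespace REC

theorem st_XRL (hLART : ST_LART) (hEV : ST_EV) (hFRV : ST_FRV) : ST_XRL :=
  Pool.Agent.Helper27.REC.st_XRL hLART hEV hFRV

end REC
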