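import Pool.Agent.Helper27.REC.XRL

set_option autoImplicit false

/-! REC, row XWR: the exact relation of a summand with large image from the data at infinitely
many `l`. -/

open scoped Classical
open NumberField Polynomial

namespace Pool.Agent.Helper27.REC

open _root_.REC
open Pool.Agent.Helper13.ZL (Pl q)
open MU

theorem cof_map {A B : Type} [CommRing A] [CommRing B] (f : A →+* B) (a : A) (p : A[X]) :
    Cof (f a) (p.map f) = fun i => f (Cof a p i) := by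
  funext i
  cases i with
  | zero => rfl
  | succ i => exact Polynomial.coeff_map f i

theorem aeval_cof {A B : Type} [CommRing A] [CommRing B] (f : A →+* B) (a : A) (p : A[X])
    (H : MvPolynomial ℕ ℤ) :
    MvPolynomial.aeval (Cof (f a) (p.map f)) H = f (MvPolynomial.aeval (Cof a p) H) := by
  rw [cof_map, MvPolynomial.aeval_def, MvPolynomial.aeval_def,
    MvPolynomial.hom_eval₂ H (algebraMap ℤ A) f (Cof a p)]
  congr 1
  exact RingHom.ext_int _ _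

theorem st_XWR (hLART : ST_LART) (hEV : ST_EV) (hFRV : ST_FRV) : ST_XWR := by
  intro F L _ _ _ _ _ _ n m h b ρ j H hH hinf
  -- one pattern for infinitely many `l`
  let P : ((F →+* L) → Finset (Fin n)) → ℕ → Prop := fun J l =>
    ∃ _ : Fact l.Prime, ∃ (Ω : Type) (_ : Field Ω) (ϑ : ℤ_[l] →+* Ω) (ι : 𝓞 L →+* Ω)
      (R : Gal F →* Matrix (Fin m) (Fin m) Ω), (l : Ω) = 0 ∧ b.At (ρ l) ϑ ι R ∧
      ∀ (v : Pl F) (p : ℕ) (𝔓 : Ideal (Zb F)) (i k : ℕ) (σ : Gal F) (x : 𝓞 F), p.Prime →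
        (p : 𝓞 F) ∈ v.asIdeal → OverP v 𝔓 → l ≠ p → CongPow 𝔓 (q v ^ i) σ → TotPos (x : F) →
        Ideal.span {x} = v.asIdeal ^ k → MvPolynomial.aeval
          (Cof (ι (∏ τ : F →+* L, RingOfIntegers.mapRingHom τ x ^ ((∑ i ∈ J τ, h i) * i)))
            (R ((σ ^ k)⁻¹)).charpoly) H = 0
  have hP : ∀ c : ℕ, ∃ l : ℕ, c < l ∧ ∃ a, P a l := by
    intro c
    obtain ⟨l, hl, hcl, Ω, _, _, ϑ, ι, R, δ, J, hl0, hA, hop, hun, hta, hch⟩ := hinf c
    refine ⟨l, hcl, J, hl, Ω, inferInstance, ϑ, ι, R, hl0, hA, ?_⟩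
    intro v p 𝔓 i k σ x hp hpv h𝔓 hlp hσ hx hxv
    rw [← char_formula hLART hEV hFRV l ι hl0 δ (fun τ => ∑ i ∈ J τ, h i) hop hun hta
        v p 𝔓 i k σ x hp hpv h𝔓 hlp hσ hx hxv]
    exact (hH Ω _ (R ((σ ^ k)⁻¹)).charpoly_monic
      (by rw [Matrix.charpoly_natDegree_eq_dim, Fintype.card_fin]) _).2 (hch _)
  obtain ⟨J, hJ⟩ := pigeon hP
  refine ⟨fun τ => ∑ i ∈ J τ, h i, ∅, ?_⟩
  intro v p 𝔓 i k σ x Φ hp _ hpv h𝔓 hi hk hσ hx hxv hΦ
  refine zero_of_inf _ fun c => ?_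
  obtain ⟨l, hcl, hl, Ω, _, ϑ, ι, R, hl0, hA, hrel⟩ := hJ (c + p)
  have hlp : l ≠ p := by omega
  refine ⟨l, hl.out, by omega, Ω, inferInstance, ι, hl0, ?_⟩
  rw [← aeval_cof, ← hΦ l hlp Ω ϑ ι R hA]
  exact hrel v p 𝔓 i k σ x hp hpv h𝔓 hlp hσ hx hxv

end Pool.Agent.Helper27.REC

namespace REC

theorem st_XWR (hLART : ST_LART) (hEV : ST_EV) (hFRV : ST_FRV) : ST_XWR :=
  Pool.Agent.Helper27.REC.st_XWR hLART hEV hFRV

end REC
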